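import Pool.Agent.W2helper59.PE.Mach

/-!
# The queries: a code of small bias from linear recurrences
-/

set_option autoImplicit false

namespace Pool.Agent.W2helper59.PE

open Finset

/-- The bit of an element of the field with two elements. -/
def tb (x : ZMod 2) : Bool := decide (x ≠ 0)

theorem tb_add (x y : ZMod 2) : tb (x + y) = xor (tb x) (tb y) := by revert x y; decide
theorem tb_mul (x y : ZMod 2) : tb (x * y) = (tb x && tb y) := by revert x y; decide
@[simp] theorem tb_zero : tb 0 = false := by decide

/-- The element of a bit. -/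
def bz (b : Bool) : ZMod 2 := if b then 1 else 0

theorem tb_bz (b : Bool) : tb (bz b) = b := by cases b <;> decide
theorem bz_tb (x : ZMod 2) : bz (tb x) = x := by revert x; decide

theorem tb_inj {x y : ZMod 2} (h : tb x = tb y) : x = y := by
  rw [← bz_tb x, ← bz_tb y, h]

/-- The sum computed by the machine. -/
def zs (m : ℕ) (s : ℕ → ZMod 2) : List Bool → ZMod 2
  | [] => 0
  | b :: bs => zs m s bs + bz b * s (m + bs.length)

theorem zs_append_congr (m : ℕ) (s : ℕ → ZMod 2) (r l l' : List Bool) (h : l.length = l'.length) :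
    zs m s (r ++ l) - zs m s (r ++ l') = zs m s l - zs m s l' := by
  induction r with
  | nil => rfl
  | cons b r ih =>
    simp only [List.cons_append, zs]
    have : (r ++ l).length = (r ++ l').length := by simp [h]
    rw [this, ← ih]
    ring

theorem zs_ofFn (m : ℕ) (s : ℕ → ZMod 2) (n : ℕ) (x : Fin n → ZMod 2) (l : List Bool) :
    zs m s (List.ofFn (fun j => tb (x j)) ++ l) =
      zs m s l + ∑ j : Fin n, x j * s (m + l.length + (n - 1 - j.1)) := by
  induction n with
  | zero => simp
  | succ n ih =>
    rw [List.ofFn_succ, List.cons_append, zs, ih (fun j => x j.succ), Fin.sum_univ_succ, bz_tb]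
    have e1 : m + (List.ofFn (fun j : Fin n => tb (x j.succ)) ++ l).length =
        m + l.length + (n + 1 - 1 - ((0 : Fin (n + 1)) : ℕ)) := by
      simp only [List.length_append, List.length_ofFn, Fin.val_zero]; omega
    rw [e1]
    have e2 : ∀ j : Fin n, m + l.length + (n - 1 - j.1) =
        m + l.length + (n + 1 - 1 - (j.succ : Fin (n + 1)).1) := by
      intro j
      simp only [Fin.val_succ]
      omega
    simp only [e2]
    ring

/-- The history. -/
def hist (s : ℕ → ZMod 2) : ℕ → List Bool
  | 0 => []
  | k + 1 => tb (s k) :: hist s k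

theorem length_hist (s : ℕ → ZMod 2) (n : ℕ) : (hist s n).length = n := by
  induction n with
  | zero => rfl
  | succ n ih => simp [hist, ih]

theorem hist_get (s : ℕ → ZMod 2) (n t : ℕ) (h : t < n) :
    (hist s n).getD t false = tb (s (n - 1 - t)) := by
  induction n generalizing t with
  | zero => omega
  | succ n ih =>
    rcases t with _ | t
    · simp [hist]
    · simp only [hist, List.getD_cons_succ]
      rw [ih t (by omega)]
      congr 2
      omega

theorem ipn_eq (k : ℕ) (l l' : List Bool) (c u : ℕ → ZMod 2)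
    (h : ∀ t < k, l.getD t false = tb (c t)) (h' : ∀ t < k, l'.getD t false = tb (u t)) :
    ipn k l l' = tb (∑ t ∈ range k, c t * u t) := by
  induction k generalizing l l' c u with
  | zero => simp [ipn]
  | succ k ih =>
    rw [ipn, ih l.tail l'.tail (fun t => c (t + 1)) (fun t => u (t + 1)), Finset.sum_range_succ',
      tb_add, tb_mul]
    · have h1 := h 0 (by omega)
      have h2 := h' 0 (by omega)
      have h3 : l.headD false = tb (c 0) := by rw [← h1]; cases l <;> rfl
      have h4 : l'.headD false = tb (u 0) := by rw [← h2]; cases l' <;> rfl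
      rw [h3, h4, Bool.xor_comm]
    · intro t ht
      rw [← h (t + 1) (by omega)]
      cases l <;> simp
    · intro t ht
      rw [← h' (t + 1) (by omega)]
      cases l' <;> simp

theorem wins_eq (m : ℕ) (s : ℕ → ZMod 2) (c : ℕ → ZMod 2) (l : List Bool)
    (hl : ∀ t < m, l.getD t false = tb (c t))
    (hs : ∀ k, s (m + k) = ∑ t ∈ range m, c t * s (m + k - 1 - t)) (k : ℕ) :
    wins m l (hist s m) k = hist s (m + k) ∧ ipn m l (hist s (m + k)) = tb (s (m + k)) := by
  have h1 : ∀ k, ipn m l (hist s (m + k)) = tb (s (m + k)) := by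
    intro k
    rw [hs k]
    refine ipn_eq m l _ c (fun t => s (m + k - 1 - t)) hl ?_
    intro t ht
    exact hist_get _ _ _ (by omega)
  refine ⟨?_, h1 k⟩
  induction k with
  | zero => rfl
  | succ k ih => rw [wins, ih, h1]; rfl

theorem outF_eq (m : ℕ) (s : ℕ → ZMod 2) (c : ℕ → ZMod 2) (l : List Bool)
    (hl : ∀ t < m, l.getD t false = tb (c t))
    (hs : ∀ k, s (m + k) = ∑ t ∈ range m, c t * s (m + k - 1 - t)) (bs : List Bool) :
    outF m l (hist s m) bs = tb (zs m s bs) := by
  induction bs with
  | nil => rfl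
  | cons b bs ih =>
    obtain ⟨h1, h2⟩ := wins_eq m s c l hl hs bs.length
    rw [outF, ih, h1, h2, zs, tb_add, tb_mul, tb_bz]

section field

variable {F : Type} [Field F] [Algebra (ZMod 2) F] [Fintype F]

theorem exists_rec {m : ℕ} (hF : Fintype.card F = 2 ^ m) (β : F) :
    ∃ c : ℕ → ZMod 2, β ^ m = ∑ t ∈ range m, c t • β ^ (m - 1 - t) := by
  have : Module.Finite (ZMod 2) F := Module.Finite.of_finite
  have hfr : Module.finrank (ZMod 2) F = m := by
    have h1 := Module.card_eq_pow_finrank (K := ZMod 2) (V := F)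
    rw [hF, ZMod.card] at h1
    exact (Nat.pow_right_injective le_rfl h1).symm
  have hint : IsIntegral (ZMod 2) β := Algebra.IsIntegral.isIntegral β
  have hdeg : (minpoly (ZMod 2) β).natDegree ≤ m := by
    rw [← hfr]
    exact minpoly.natDegree_le β
  set P := minpoly (ZMod 2) β * Polynomial.X ^ (m - (minpoly (ZMod 2) β).natDegree) with hP
  have hmon : P.Monic := (minpoly.monic hint).mul (Polynomial.monic_X_pow _)
  have hnd : P.natDegree = m := by
    rw [hP, (minpoly.monic hint).natDegree_mul (Polynomial.monic_X_pow _),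
      Polynomial.natDegree_X_pow]
    omega
  have hev : Polynomial.aeval β P = 0 := by
    rw [hP, map_mul, minpoly.aeval, zero_mul]
  rw [Polynomial.aeval_eq_sum_range, hnd, Finset.sum_range_succ] at hev
  have hlead : P.coeff m = 1 := by rw [← hnd]; exact hmon
  rw [hlead, one_smul] at hev
  refine ⟨fun t => - P.coeff (m - 1 - t), ?_⟩
  have h1 : β ^ m = - ∑ i ∈ range m, P.coeff i • β ^ i := by
    rw [eq_neg_iff_add_eq_zero, add_comm]; exact hev
  rw [h1, ← Finset.sum_range_reflect, ← Finset.sum_neg_distrib]
  refine Finset.sum_congr rfl fun t _ => ?_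
  rw [neg_smul]

theorem card_dual {m : ℕ} (hF : Fintype.card F = 2 ^ m)
    [Fintype (Module.Dual (ZMod 2) F)] : Fintype.card (Module.Dual (ZMod 2) F) = 2 ^ m := by
  have : Module.Finite (ZMod 2) F := Module.Finite.of_finite
  have hfr : Module.finrank (ZMod 2) F = m := by
    have h1 := Module.card_eq_pow_finrank (K := ZMod 2) (V := F)
    rw [hF, ZMod.card] at h1
    exact (Nat.pow_right_injective le_rfl h1).symm
  have h1 := Module.card_eq_pow_finrank (K := ZMod 2) (V := Module.Dual (ZMod 2) F)
  rw [h1, ZMod.card, Subspace.dual_finrank_eq, hfr]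

theorem dual_half [Fintype (Module.Dual (ZMod 2) F)] (u : F) (hu : u ≠ 0) :
    Fintype.card (Module.Dual (ZMod 2) F) ≤
      2 * (univ.filter fun φ : Module.Dual (ZMod 2) F => φ u ≠ 0).card := by
  classical
  obtain ⟨φ₀, hφ₀⟩ : ∃ φ : Module.Dual (ZMod 2) F, φ u ≠ 0 := by
    by_contra h
    push Not at h
    exact hu ((Module.forall_dual_apply_eq_zero_iff (ZMod 2) u).1 h)
  have h1 : (univ.filter fun φ : Module.Dual (ZMod 2) F => ¬ φ u ≠ 0).card ≤
      (univ.filter fun φ : Module.Dual (ZMod 2) F => φ u ≠ 0).card := by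
    refine Finset.card_le_card_of_injOn (fun φ => φ + φ₀) ?_ ?_
    · intro φ hφ
      simp only [coe_filter, mem_univ, true_and, Set.mem_ofPred_eq, not_not] at hφ ⊢
      rw [LinearMap.add_apply, hφ, zero_add]
      exact hφ₀
    · intro φ _ φ' _ h
      simpa using h
  have h2 := card_filter_add_card_filter_not (s := (univ : Finset (Module.Dual (ZMod 2) F)))
    (fun φ => φ u ≠ 0)
  rw [card_univ] at h2
  omega

theorem card_roots (a n : ℕ) (y : Fin n → ZMod 2) (hy : y ≠ 0) [DecidableEq F] :
    (univ.filter fun β : F => ∑ j : Fin n, y j • β ^ (a + (n - 1 - j.1)) = 0).card ≤ n := by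
  obtain ⟨j0, hj0⟩ : ∃ j, y j ≠ 0 := by
    by_contra h
    push Not at h
    exact hy (funext h)
  have hn : 0 < n := j0.pos
  set P : Polynomial (ZMod 2) := ∑ j : Fin n, Polynomial.monomial (n - 1 - j.1) (y j) with hP
  have hcoeff : P.coeff (n - 1 - j0.1) = y j0 := by
    rw [hP, Polynomial.finsetSum_coeff, Finset.sum_eq_single j0]
    · simp
    · intro j _ hj
      rw [Polynomial.coeff_monomial, if_neg]
      intro h
      apply hj
      ext
      have := j.2
      have := j0.2
      omega
    · simp
  have hP0 : P ≠ 0 := by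
    intro h
    rw [h] at hcoeff
    exact hj0 (by simpa using hcoeff.symm)
  have hdeg : P.natDegree ≤ n - 1 := by
    refine Polynomial.natDegree_sum_le_of_forall_le _ _ fun j _ => ?_
    exact (Polynomial.natDegree_monomial_le _).trans (Nat.sub_le _ _)
  set P' := P.map (algebraMap (ZMod 2) F) with hP'
  have hP'0 : P' ≠ 0 := by
    rw [hP', Polynomial.map_ne_zero_iff (algebraMap (ZMod 2) F).injective]
    exact hP0
  have hsub : (univ.filter fun β : F => ∑ j : Fin n, y j • β ^ (a + (n - 1 - j.1)) = 0) ⊆
      insert 0 P'.roots.toFinset := by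
    intro β hβ
    simp only [mem_filter, mem_univ, true_and] at hβ
    rw [Finset.mem_insert, Multiset.mem_toFinset, Polynomial.mem_roots hP'0]
    by_cases hβ0 : β = 0
    · exact Or.inl hβ0
    · right
      have h1 : ∑ j : Fin n, y j • β ^ (a + (n - 1 - j.1)) = β ^ a * Polynomial.aeval β P := by
        rw [hP, map_sum, Finset.mul_sum]
        refine Finset.sum_congr rfl fun j _ => ?_
        rw [Polynomial.aeval_monomial, pow_add, Algebra.smul_def]
        ring
      rw [h1] at hβ
      have h2 := (mul_eq_zero.1 hβ).resolve_left (pow_ne_zero _ hβ0)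
      rw [Polynomial.IsRoot, hP', Polynomial.eval_map_algebraMap]
      exact h2
  refine (card_le_card hsub).trans ((card_insert_le _ _).trans ?_)
  have h3 : P'.roots.toFinset.card ≤ n - 1 :=
    (Multiset.toFinset_card_le _).trans ((Polynomial.card_roots' _).trans
      ((Polynomial.natDegree_map_le).trans hdeg))
  omega

end field

/-- The queries. -/
theorem exists_queries (m : ℕ) (hm : 0 < m) : ∃ (Q : Type) (_ : Fintype Q)
    (lab : Q → List Bool × List Bool) (s : Q → ℕ → ZMod 2),
    Fintype.card Q = 2 ^ m * 2 ^ m ∧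
    (∀ q, (lab q).1.length = m ∧ (lab q).2.length = m) ∧
    (∀ q bs, outF m ((lab q).1 ++ (lab q).2) (lab q).2 bs = tb (zs m (s q) bs)) ∧
    (∀ (n e : ℕ) (y : Fin n → ZMod 2), y ≠ 0 → Fintype.card Q ≤
      2 * (univ.filter fun q => ∑ j : Fin n, y j * s q (m + e + (n - 1 - j.1)) ≠ 0).card +
        n * 2 ^ m) := by
  classical
  have : Fact (Nat.Prime 2) := ⟨Nat.prime_two⟩
  have hfin : Finite (GaloisField 2 m) := inferInstance
  let iF : Fintype (GaloisField 2 m) := Fintype.ofFinite _
  have hF : Fintype.card (GaloisField 2 m) = 2 ^ m := by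
    rw [← Nat.card_eq_fintype_card]
    exact GaloisField.card 2 m hm.ne'
  have : Module.Finite (ZMod 2) (GaloisField 2 m) := Module.Finite.of_finite
  have : Finite (Module.Dual (ZMod 2) (GaloisField 2 m)) := Module.finite_of_finite (ZMod 2)
  let iD : Fintype (Module.Dual (ZMod 2) (GaloisField 2 m)) := Fintype.ofFinite _
  have hD := card_dual (F := GaloisField 2 m) hF
  choose c hc using exists_rec (F := GaloisField 2 m) hF
  refine ⟨GaloisField 2 m × Module.Dual (ZMod 2) (GaloisField 2 m), inferInstance,
    fun q => (List.ofFn (fun t : Fin m => tb (c q.1 t)), hist (fun j => q.2 (q.1 ^ j)) m),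
    fun q j => q.2 (q.1 ^ j), ?_, ?_, ?_, ?_⟩
  · rw [Fintype.card_prod, hF, hD]
  · intro q
    exact ⟨by simp, length_hist _ _⟩
  · intro q bs
    refine outF_eq m _ (c q.1) _ ?_ ?_ bs
    · intro t ht
      rw [List.getD_append _ _ _ _ (by simpa using ht), List.getD_eq_getElem _ _ (by simpa using ht)]
      simp
    · intro k
      rw [pow_add, hc q.1, Finset.sum_mul, map_sum]
      refine Finset.sum_congr rfl fun t ht => ?_
      rw [smul_mul_assoc, map_smul, ← pow_add, smul_eq_mul]
      congr 3
      have := Finset.mem_range.1 ht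
      omega
  · intro n e y hy
    have key : ∀ β : GaloisField 2 m, Fintype.card (Module.Dual (ZMod 2) (GaloisField 2 m)) ≤
        2 * (univ.filter fun φ : Module.Dual (ZMod 2) (GaloisField 2 m) =>
          ∑ j : Fin n, y j * φ (β ^ (m + e + (n - 1 - j.1))) ≠ 0).card +
        (if ∑ j : Fin n, y j • β ^ (m + e + (n - 1 - j.1)) = 0 then 2 ^ m else 0) := by
      intro β
      split_ifs with h
      · rw [hD]; omega
      · refine (dual_half _ h).trans (le_of_eq ?_)
        rw [add_zero]
        congr 3
        ext φ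
        rw [map_sum]
        simp only [map_smul, smul_eq_mul]
    calc Fintype.card (GaloisField 2 m × Module.Dual (ZMod 2) (GaloisField 2 m))
        = ∑ _β : GaloisField 2 m, Fintype.card (Module.Dual (ZMod 2) (GaloisField 2 m)) := by
          rw [Fintype.card_prod]; simp
      _ ≤ ∑ β : GaloisField 2 m,
          (2 * (univ.filter fun φ : Module.Dual (ZMod 2) (GaloisField 2 m) =>
            ∑ j : Fin n, y j * φ (β ^ (m + e + (n - 1 - j.1))) ≠ 0).card +
          (if ∑ j : Fin n, y j • β ^ (m + e + (n - 1 - j.1)) = 0 then 2 ^ m else 0)) :=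
          Finset.sum_le_sum fun β _ => key β
      _ = 2 * (univ.filter fun q : GaloisField 2 m × Module.Dual (ZMod 2) (GaloisField 2 m) =>
            ∑ j : Fin n, y j * q.2 (q.1 ^ (m + e + (n - 1 - j.1))) ≠ 0).card +
          (univ.filter fun β : GaloisField 2 m =>
            ∑ j : Fin n, y j • β ^ (m + e + (n - 1 - j.1)) = 0).card * 2 ^ m := by
          rw [Finset.sum_add_distrib, ← Finset.mul_sum]
          congr 1
          · congr 1
            simp only [card_filter]
            rw [Fintype.sum_prod_type]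
          · rw [← Finset.sum_filter, Finset.sum_const, smul_eq_mul]
      _ ≤ _ := Nat.add_le_add_left (Nat.mul_le_mul_right _ (card_roots _ _ _ hy)) _

end Pool.Agent.W2helper59.PE
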