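import Pool.Agent.W2helper59.PE.Defs

/-!
# Parsing expression grammars: values
-/

set_option autoImplicit false

namespace Pool.Agent.W2helper59.PE

variable {A : Type}

namespace PEG

variable {G : PEG A}

theorem Res.det {e : PExp G.N A} {w : List A} {r r' : Option (List A)} (h : G.Res e w r)
    (h' : G.Res e w r') : r = r' := by
  induction h generalizing r' with
  | eps w => cases h'; rfl
  | term a s =>
    cases h' with
    | term => rfl
    | termFail _ _ h => simp at h
  | termFail a w hw =>
    cases h' with
    | term => simp at hw
    | termFail => rfl
  | seqOk e₁ e₂ w v r _ _ ih₁ ih₂ =>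
    cases h' with
    | seqOk _ _ _ v' _ h1 h2 =>
      have := ih₁ h1
      simp only [Option.some.injEq] at this
      subst this
      exact ih₂ h2
    | seqFail _ _ _ h1 => simpa using ih₁ h1
  | seqFail e₁ e₂ w _ ih =>
    cases h' with
    | seqOk _ _ _ v' _ h1 h2 => simpa using ih h1
    | seqFail => rfl
  | nt X w r _ ih =>
    cases h' with
    | nt _ _ _ h1 => exact ih h1
  | altOk e₁ e₂ w v _ ih =>
    cases h' with
    | altOk _ _ _ v' h1 => exact ih h1
    | altFail _ _ _ _ h1 _ => simpa using ih h1
  | altFail e₁ e₂ w r _ _ ih₁ ih₂ =>
    cases h' with
    | altOk _ _ _ v' h1 => simpa using ih₁ h1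
    | altFail _ _ _ _ _ h2 => exact ih₂ h2
  | negOk e w _ ih =>
    cases h' with
    | negOk => rfl
    | negFail _ _ v h1 => simpa using ih h1
  | negFail e w v _ ih =>
    cases h' with
    | negOk _ _ h1 => simpa using ih h1
    | negFail => rfl

theorem Res.suffix {e : PExp G.N A} {w v : List A} (h : G.Res e w (some v)) : v <:+ w := by
  generalize hr : (some v : Option (List A)) = r at h
  induction h generalizing v with
  | eps w => cases hr; exact List.suffix_refl _
  | term a s => cases hr; exact List.suffix_cons _ _
  | termFail => cases hr
  | seqOk e₁ e₂ w v' r _ _ ih₁ ih₂ => exact (ih₂ hr).trans (ih₁ rfl)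
  | seqFail => cases hr
  | nt X w r _ ih => exact ih hr
  | altOk e₁ e₂ w v' _ ih => exact ih hr
  | altFail e₁ e₂ w r _ _ _ ih₂ => exact ih₂ hr
  | negOk e w _ ih => cases hr; exact List.suffix_refl _
  | negFail => cases hr

/-- The value of a sequence in terms of the value of the first expression. -/
def seqR (r : Option (Option (List A))) (k : List A → Option (Option (List A))) :
    Option (Option (List A)) :=
  match r with
  | none => none
  | some none => some none
  | some (some v) => k v

@[simp] theorem seqR_none (k : List A → Option (Option (List A))) : seqR none k = none := rfl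
@[simp] theorem seqR_fail (k : List A → Option (Option (List A))) :
    seqR (some none) k = some none := rfl
@[simp] theorem seqR_ok (v : List A) (k : List A → Option (Option (List A))) :
    seqR (some (some v)) k = k v := rfl

/-- The value of a choice in terms of the values of the two expressions. -/
def altR (r k : Option (Option (List A))) : Option (Option (List A)) :=
  match r with
  | none => none
  | some none => k
  | some (some v) => some (some v)

@[simp] theorem altR_none (k : Option (Option (List A))) : altR none k = none := rfl
@[simp] theorem altR_fail (k : Option (Option (List A))) : altR (some none) k = k := rfl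
@[simp] theorem altR_ok (v : List A) (k : Option (Option (List A))) :
    altR (some (some v)) k = some (some v) := rfl

/-- The value of a negation in terms of the value of the expression. -/
def negR (r : Option (Option (List A))) (w : List A) : Option (Option (List A)) :=
  match r with
  | none => none
  | some none => some (some w)
  | some (some _) => some none

@[simp] theorem negR_none (w : List A) : negR none w = none := rfl
@[simp] theorem negR_fail (w : List A) : negR (some none) w = some (some w) := rfl
@[simp] theorem negR_ok (v : List A) (w : List A) : negR (some (some v)) w = some none := rfl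

open Classical in
/-- The value `R(e, w)`, with `none` if it is undefined. -/
noncomputable def value (G : PEG A) (e : PExp G.N A) (w : List A) : Option (Option (List A)) :=
  if h : ∃ r, G.Res e w r then some h.choose else none

theorem value_eq_some_iff {e : PExp G.N A} {w : List A} {r : Option (List A)} :
    G.value e w = some r ↔ G.Res e w r := by
  unfold value
  constructor
  · intro h
    split_ifs at h with h1
    · simp only [Option.some.injEq] at h
      rw [← h]
      exact h1.choose_spec
  · intro h
    have h1 : ∃ r, G.Res e w r := ⟨r, h⟩
    rw [dif_pos h1]
    exact congrArg some (h1.choose_spec.det h)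

theorem value_eq_none_iff {e : PExp G.N A} {w : List A} :
    G.value e w = none ↔ ∀ r, ¬ G.Res e w r := by
  unfold value
  constructor
  · intro h r hr
    rw [dif_pos ⟨r, hr⟩] at h
    cases h
  · intro h
    rw [dif_neg]
    rintro ⟨r, hr⟩
    exact h r hr

theorem Res.value {e : PExp G.N A} {w : List A} {r : Option (List A)} (h : G.Res e w r) :
    G.value e w = some r := value_eq_some_iff.2 h

@[simp] theorem value_eps (w : List A) : G.value .eps w = some (some w) := (Res.eps w).value

theorem value_term_cons_self (a : A) (w : List A) :
    G.value (.term a) (a :: w) = some (some w) := (Res.term a w).value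

@[simp] theorem value_term_nil (a : A) : G.value (.term a) [] = some none :=
  (Res.termFail a [] (by simp)).value

@[simp] theorem value_term_cons [DecidableEq A] (a b : A) (w : List A) :
    G.value (.term a) (b :: w) = if b = a then some (some w) else some none := by
  split_ifs with h
  · subst h; exact value_term_cons_self _ _
  · exact (Res.termFail a (b :: w) (by simpa using h)).value

theorem value_nt (X : G.N) (w : List A) : G.value (.nt X) w = G.value (G.rule X) w := by
  rcases h : G.value (G.rule X) w with _ | r
  · rw [value_eq_none_iff] at h ⊢
    intro r hr
    cases hr with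
    | nt _ _ _ h1 => exact h _ h1
  · rw [value_eq_some_iff] at h ⊢
    exact Res.nt _ _ _ h

@[simp] theorem value_seq (e₁ e₂ : PExp G.N A) (w : List A) :
    G.value (.seq e₁ e₂) w = seqR (G.value e₁ w) (G.value e₂) := by
  rcases h : G.value e₁ w with _ | _ | v
  · simp only [seqR_none]
    rw [value_eq_none_iff] at h ⊢
    intro r hr
    cases hr with
    | seqOk _ _ _ v' _ h1 h2 => exact h _ h1
    | seqFail _ _ _ h1 => exact h _ h1
  · rw [seqR_fail]
    rw [value_eq_some_iff] at h ⊢
    exact Res.seqFail _ _ _ h
  · simp only [seqR_ok]
    rw [value_eq_some_iff] at h
    rcases h2 : G.value e₂ v with _ | r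
    · rw [value_eq_none_iff] at h2 ⊢
      intro r hr
      cases hr with
      | seqOk _ _ _ v' _ h3 h4 =>
        have := h.det h3
        simp only [Option.some.injEq] at this
        subst this
        exact h2 _ h4
      | seqFail _ _ _ h3 => simpa using h.det h3
    · rw [value_eq_some_iff] at h2 ⊢
      exact Res.seqOk _ _ _ _ _ h h2

@[simp] theorem value_alt (e₁ e₂ : PExp G.N A) (w : List A) :
    G.value (.alt e₁ e₂) w = altR (G.value e₁ w) (G.value e₂ w) := by
  rcases h : G.value e₁ w with _ | _ | v
  · simp only [altR_none]
    rw [value_eq_none_iff] at h ⊢
    intro r hr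
    cases hr with
    | altOk _ _ _ v' h1 => exact h _ h1
    | altFail _ _ _ _ h1 _ => exact h _ h1
  · simp only [altR_fail]
    rw [value_eq_some_iff] at h
    rcases h2 : G.value e₂ w with _ | r
    · rw [value_eq_none_iff] at h2 ⊢
      intro r hr
      cases hr with
      | altOk _ _ _ v' h3 => simpa using h.det h3
      | altFail _ _ _ _ _ h3 => exact h2 _ h3
    · rw [value_eq_some_iff] at h2 ⊢
      exact Res.altFail _ _ _ _ h h2
  · rw [altR_ok]
    rw [value_eq_some_iff] at h ⊢
    exact Res.altOk _ _ _ _ h

@[simp] theorem value_neg (e : PExp G.N A) (w : List A) :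
    G.value (.neg e) w = negR (G.value e w) w := by
  rcases h : G.value e w with _ | _ | v
  · simp only [negR_none]
    rw [value_eq_none_iff] at h ⊢
    intro r hr
    cases hr with
    | negOk _ _ h1 => exact h _ h1
    | negFail _ _ v h1 => exact h _ h1
  · rw [negR_fail]
    rw [value_eq_some_iff] at h ⊢
    exact Res.negOk _ _ h
  · rw [negR_ok]
    rw [value_eq_some_iff] at h ⊢
    exact Res.negFail _ _ _ h

theorem mem_language {w : List A} :
    w ∈ G.language ↔ G.value (.nt G.start) w = some (some []) := by
  rw [value_eq_some_iff]
  rfl

end PEG

end Pool.Agent.W2helper59.PE
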