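import Mathlib

/-!
# Counting: random samples of cells and codes of small bias
-/

set_option autoImplicit false

namespace Pool.Agent.W2helper59.PE

open Finset

theorem pow_ineq (M h : ℕ) (hh : h ≤ M + 1) :
    2 * (M + 1) * M ^ h + h * (M + 1) ^ h ≤ 2 * (M + 1) * (M + 1) ^ h := by
  induction h with
  | zero => simp
  | succ h ih =>
    have ih := ih (by omega)
    have h1 : 2 * (M + 1) * M ^ (h + 1) + M * h * (M + 1) ^ h ≤
        M * (2 * (M + 1)) * (M + 1) ^ h := by
      calc 2 * (M + 1) * M ^ (h + 1) + M * h * (M + 1) ^ h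
          = M * (2 * (M + 1) * M ^ h + h * (M + 1) ^ h) := by ring
        _ ≤ M * (2 * (M + 1) * (M + 1) ^ h) := Nat.mul_le_mul_left _ ih
        _ = _ := by ring
    have h2 : (h + 1) * (M + 1) * (M + 1) ^ h + M * (2 * (M + 1)) * (M + 1) ^ h ≤
        2 * (M + 1) * (M + 1) * (M + 1) ^ h + M * h * (M + 1) ^ h := by
      rw [← Nat.add_mul, ← Nat.add_mul]
      refine Nat.mul_le_mul_right _ ?_
      nlinarith
    calc 2 * (M + 1) * M ^ (h + 1) + (h + 1) * (M + 1) ^ (h + 1)
        = 2 * (M + 1) * M ^ (h + 1) + (h + 1) * (M + 1) * (M + 1) ^ h := by ring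
      _ ≤ 2 * (M + 1) * (M + 1) * (M + 1) ^ h := by omega
      _ = 2 * (M + 1) * (M + 1) ^ (h + 1) := by ring

/-- The number of functions that attain a given value. -/
theorem card_hit (h N : ℕ) (hN : 0 < N) (hh : h ≤ N) (x : Fin N) :
    h * N ^ h ≤ 2 * N * (univ.filter fun φ : Fin h → Fin N => ∃ j, φ j = x).card := by
  classical
  obtain ⟨M, rfl⟩ : ∃ M, N = M + 1 := ⟨N - 1, by omega⟩
  have h1 : (univ.filter fun φ : Fin h → Fin (M + 1) => ¬ ∃ j, φ j = x).card = M ^ h := by
    have : (univ.filter fun φ : Fin h → Fin (M + 1) => ¬ ∃ j, φ j = x) =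
        Fintype.piFinset fun _ : Fin h => univ.erase x := by
      ext φ
      simp [Fintype.mem_piFinset]
    rw [this, Fintype.card_piFinset]
    simp
  have h2 := card_filter_add_card_filter_not (s := (univ : Finset (Fin h → Fin (M + 1))))
    (fun φ => ∃ j, φ j = x)
  rw [h1, card_univ, Fintype.card_fun, Fintype.card_fin, Fintype.card_fin] at h2
  have h3 := pow_ineq M h hh
  have h4 : 2 * (M + 1) * (univ.filter fun φ : Fin h → Fin (M + 1) => ∃ j, φ j = x).card +
      2 * (M + 1) * M ^ h = 2 * (M + 1) * (M + 1) ^ h := by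
    rw [← Nat.mul_add, h2]
  omega

theorem exists_cover {N t : ℕ} (hN : 0 < N) (D : Finset (Fin N)) (hD : D.card ≤ t) :
    ∃ d : Fin t → Fin N, ∀ x ∈ D, ∃ i, d i = x := by
  classical
  have : Nonempty (Fin N) := ⟨⟨0, hN⟩⟩
  obtain ⟨x0⟩ := this
  have e : Fin D.card ≃ D := D.equivFin.symm
  refine ⟨fun i => if h : i.1 < D.card then (e ⟨i.1, h⟩).1 else x0, fun x hx => ?_⟩
  refine ⟨⟨(e.symm ⟨x, hx⟩).1, (e.symm ⟨x, hx⟩).2.trans_le hD⟩, ?_⟩
  simp

/-- There is a sample which contains many of the given small sets. -/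
theorem sampling {N h t : ℕ} (hN : 0 < N) (hh : h ≤ N) {Q : Type} (S : Finset Q)
    (D : Q → Finset (Fin N)) (hD : ∀ q ∈ S, (D q).card ≤ t) :
    ∃ g : Fin t → Fin h → Fin N,
      S.card * h ^ t ≤ (2 * N) ^ t * (S.filter fun q => ∀ x ∈ D q, ∃ i j, g i j = x).card := by
  classical
  by_contra hcon
  push Not at hcon
  have hcov : ∀ q, ∃ d : Fin t → Fin N, q ∈ S → ∀ x ∈ D q, ∃ i, d i = x := by
    intro q
    by_cases hq : q ∈ S
    · obtain ⟨d, hd⟩ := exists_cover hN (D q) (hD q hq)
      exact ⟨d, fun _ => hd⟩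
    · exact ⟨fun _ => ⟨0, hN⟩, fun h => absurd h hq⟩
  choose d hd using hcov
  have hlow : ∀ q ∈ S, (h * N ^ h) ^ t ≤ (2 * N) ^ t *
      (univ.filter fun g : Fin t → Fin h → Fin N => ∀ i, ∃ j, g i j = d q i).card := by
    intro q _
    have e : (univ.filter fun g : Fin t → Fin h → Fin N => ∀ i, ∃ j, g i j = d q i) =
        Fintype.piFinset fun i : Fin t =>
          univ.filter fun φ : Fin h → Fin N => ∃ j, φ j = d q i := by
      ext g
      simp [Fintype.mem_piFinset]
    rw [e, Fintype.card_piFinset]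
    have : (2 * N) ^ t * ∏ i : Fin t, (univ.filter fun φ : Fin h → Fin N =>
        ∃ j, φ j = d q i).card = ∏ i : Fin t, (2 * N * (univ.filter fun φ : Fin h → Fin N =>
        ∃ j, φ j = d q i).card) := by
      rw [Finset.prod_mul_distrib]
      simp
    rw [this]
    calc (h * N ^ h) ^ t = ∏ _i : Fin t, h * N ^ h := by simp
      _ ≤ _ := Finset.prod_le_prod' fun i _ => card_hit h N hN hh (d q i)
  have hsum : S.card * (h * N ^ h) ^ t ≤ (2 * N) ^ t *
      ∑ g : Fin t → Fin h → Fin N, (S.filter fun q => ∀ x ∈ D q, ∃ i j, g i j = x).card := by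
    calc S.card * (h * N ^ h) ^ t = ∑ _q ∈ S, (h * N ^ h) ^ t := by simp
      _ ≤ ∑ q ∈ S, (2 * N) ^ t *
          (univ.filter fun g : Fin t → Fin h → Fin N => ∀ i, ∃ j, g i j = d q i).card :=
          Finset.sum_le_sum hlow
      _ = (2 * N) ^ t * ∑ q ∈ S,
          (univ.filter fun g : Fin t → Fin h → Fin N => ∀ i, ∃ j, g i j = d q i).card := by
          rw [Finset.mul_sum]
      _ ≤ (2 * N) ^ t * ∑ q ∈ S,
          (univ.filter fun g : Fin t → Fin h → Fin N => ∀ x ∈ D q, ∃ i j, g i j = x).card := by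
          refine Nat.mul_le_mul_left _ (Finset.sum_le_sum fun q hq => Finset.card_le_card ?_)
          intro g hg
          simp only [mem_filter, mem_univ, true_and] at hg ⊢
          intro x hx
          obtain ⟨i, hi⟩ := hd q hq x hx
          obtain ⟨j, hj⟩ := hg i
          exact ⟨i, j, hj.trans hi⟩
      _ = _ := by
          congr 1
          simp only [card_filter]
          rw [Finset.sum_comm]
  have hlt : (2 * N) ^ t *
      ∑ g : Fin t → Fin h → Fin N, (S.filter fun q => ∀ x ∈ D q, ∃ i j, g i j = x).card <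
      ∑ _g : Fin t → Fin h → Fin N, S.card * h ^ t := by
    rw [Finset.mul_sum]
    have : Nonempty (Fin t → Fin h → Fin N) := ⟨fun _ _ => ⟨0, hN⟩⟩
    exact Finset.sum_lt_sum_of_nonempty univ_nonempty fun g _ => hcon g
  have h3 : ∑ _g : Fin t → Fin h → Fin N, S.card * h ^ t = S.card * (h * N ^ h) ^ t := by
    simp only [sum_const, card_univ, Fintype.card_fun, Fintype.card_fin, smul_eq_mul]
    rw [mul_pow]
    ring
  omega

section kernel

variable {Q : Type} [Fintype Q] {n : ℕ}

open Classical in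
theorem half (K : Finset (Fin n → ZMod 2)) (hK : ∀ x ∈ K, ∀ y ∈ K, x + y ∈ K)
    (u : Fin n → ZMod 2) :
    2 * (K.filter fun y => ∑ j, y j * u j ≠ 0).card ≤ K.card := by
  by_cases h : ∃ y ∈ K, ∑ j, y j * u j ≠ 0
  · obtain ⟨y0, hy0, hy1⟩ := h
    have h1 : (K.filter fun y => ∑ j, y j * u j ≠ 0).card ≤
        (K.filter fun y => ¬ ∑ j, y j * u j ≠ 0).card := by
      refine Finset.card_le_card_of_injOn (fun y => y + y0) ?_ ?_
      · intro y hy
        simp only [coe_filter, Set.mem_ofPred_eq] at hy ⊢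
        refine ⟨hK _ hy.1 _ hy0, ?_⟩
        simp only [Pi.add_apply, add_mul, Finset.sum_add_distrib]
        generalize ∑ j, y j * u j = a at hy
        generalize ∑ j, y0 j * u j = b at hy1
        have h2 : a ≠ 0 := hy.2
        clear hy
        revert a b
        decide
      · intro y _ y' _ h
        simpa using h
    have h2 := card_filter_add_card_filter_not (s := K) (fun y => ∑ j, y j * u j ≠ 0)
    omega
  · push Not at h
    have : (K.filter fun y => ∑ j, y j * u j ≠ 0) = ∅ := by
      ext y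
      simp only [mem_filter, notMem_empty, iff_false, not_and, not_not]
      exact h y
    rw [this]
    simp

theorem kernel_arith {a b c e : ℕ} (h1 : (a - 1) * (b - e) ≤ (b - c) * a) (ha : 1 ≤ a)
    (hc : c ≤ b) : a * c ≤ b + a * e := by
  rcases le_or_gt b e with hE | hE
  · calc a * c ≤ a * e := Nat.mul_le_mul_left _ (hc.trans hE)
      _ ≤ _ := Nat.le_add_left _ _
  · obtain ⟨a', rfl⟩ : ∃ a', a = a' + 1 := ⟨a - 1, by omega⟩
    obtain ⟨x, rfl⟩ : ∃ x, b = e + x := ⟨b - e, by omega⟩
    obtain ⟨y, hy⟩ : ∃ y, e + x = c + y := ⟨e + x - c, by omega⟩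
    rw [show a' + 1 - 1 = a' by omega, show e + x - e = x by omega,
      show e + x - c = y by omega] at h1
    nlinarith

open Classical in
/-- A code of small bias has few words that vanish on a large set. -/
theorem kernel (s : Q → Fin n → ZMod 2) (E0 : ℕ)
    (hs : ∀ y : Fin n → ZMod 2, y ≠ 0 →
      Fintype.card Q ≤ 2 * (univ.filter fun q => ∑ j, y j * s q j ≠ 0).card + E0)
    (R : Finset Q) :
    (univ.filter fun y : Fin n → ZMod 2 => ∀ q ∈ R, ∑ j, y j * s q j = 0).card * R.card ≤
      Fintype.card Q +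
      (univ.filter fun y : Fin n → ZMod 2 => ∀ q ∈ R, ∑ j, y j * s q j = 0).card * E0 := by
  set K := univ.filter fun y : Fin n → ZMod 2 => ∀ q ∈ R, ∑ j, y j * s q j = 0 with hKdef
  have hK : ∀ x ∈ K, ∀ y ∈ K, x + y ∈ K := by
    intro x hx y hy
    simp only [hKdef, mem_filter, mem_univ, true_and] at hx hy ⊢
    intro q hq
    simp only [Pi.add_apply, add_mul, Finset.sum_add_distrib, hx q hq, hy q hq, add_zero]
  have h0 : (0 : Fin n → ZMod 2) ∈ K := by simp [hKdef]
  -- double counting
  have hup : ∑ q : Q, 2 * (K.filter fun y => ∑ j, y j * s q j ≠ 0).card ≤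
      (Fintype.card Q - R.card) * K.card := by
    have : ∑ q : Q, 2 * (K.filter fun y => ∑ j, y j * s q j ≠ 0).card =
        ∑ q ∈ Rᶜ, 2 * (K.filter fun y => ∑ j, y j * s q j ≠ 0).card := by
      symm
      refine Finset.sum_subset (subset_univ _) ?_
      intro q _ hq
      simp only [mem_compl, not_not] at hq
      have : (K.filter fun y => ∑ j, y j * s q j ≠ 0) = ∅ := by
        ext y
        simp only [hKdef, mem_filter, mem_univ, true_and, notMem_empty, iff_false, not_and,
          not_not]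
        intro h
        exact h q hq
      rw [this]
      simp
    rw [this, ← card_compl, ← smul_eq_mul, ← sum_const]
    exact Finset.sum_le_sum fun q _ => half K hK (s q)
  have hlow : (K.card - 1) * (Fintype.card Q - E0) ≤
      ∑ y ∈ K, 2 * (univ.filter fun q : Q => ∑ j, y j * s q j ≠ 0).card := by
    obtain ⟨F, hF⟩ : ∃ F : (Fin n → ZMod 2) → ℕ, ∀ y, F y = 2 * (univ.filter fun q : Q =>
      ∑ j, y j * s q j ≠ 0).card := ⟨_, fun _ => rfl⟩
    have e0 : ∑ y ∈ K, 2 * (univ.filter fun q : Q => ∑ j, y j * s q j ≠ 0).card =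
        ∑ y ∈ K, F y := Finset.sum_congr rfl fun y _ => (hF y).symm
    have e1 : ∑ y ∈ K.erase 0, F y ≤ ∑ y ∈ K, F y :=
      Finset.sum_le_sum_of_subset (erase_subset _ _)
    have e2 : ∑ _y ∈ K.erase 0, (Fintype.card Q - E0) ≤ ∑ y ∈ K.erase 0, F y := by
      refine Finset.sum_le_sum fun y hy => ?_
      have := hs y (ne_of_mem_erase hy)
      rw [hF]
      omega
    rw [sum_const, card_erase_of_mem h0, smul_eq_mul] at e2
    rw [e0]
    exact e2.trans e1
  have hcomm : ∑ y ∈ K, 2 * (univ.filter fun q : Q => ∑ j, y j * s q j ≠ 0).card =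
      ∑ q : Q, 2 * (K.filter fun y => ∑ j, y j * s q j ≠ 0).card := by
    rw [← Finset.mul_sum, ← Finset.mul_sum]
    congr 1
    simp only [card_filter]
    rw [Finset.sum_comm]
  rw [hcomm] at hlow
  have h1 := hlow.trans hup
  have hKpos : 1 ≤ K.card := card_pos.2 ⟨0, h0⟩
  have hRQ : R.card ≤ Fintype.card Q := card_le_univ R
  clear hlow hup hcomm h0 hK hKdef hs
  generalize K.card = a at *
  generalize R.card = c at *
  generalize Fintype.card Q = b at *
  exact kernel_arith h1 hKpos hRQ

end kernel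

open Classical in
/-- The epoch lemma. -/
theorem epoch {n N t h E0 : ℕ} {Q P C M : Type} [Fintype Q] [Fintype P] [Fintype C] [Fintype M]
    (f : (Fin n → ZMod 2) → P → Q → ZMod 2)
    (D : (Fin n → ZMod 2) → P → Q → Finset (Fin N))
    (memE : (Fin n → ZMod 2) → P → Fin N → C)
    (memR : (Fin n → ZMod 2) → P → M)
    (s : Q → Fin n → ZMod 2)
    (hloc : ∀ x x' ρ q, (∀ k ∈ D x ρ q, memE x ρ k = memE x' ρ k) → memR x ρ = memR x' ρ →
      f x ρ q = f x' ρ q)
    (hf : ∀ x x' ρ q, f x ρ q - f x' ρ q = ∑ j, (x j - x' j) * s q j)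
    (hs : ∀ y : Fin n → ZMod 2, y ≠ 0 →
      Fintype.card Q ≤ 2 * (univ.filter fun q => ∑ j, y j * s q j ≠ 0).card + E0)
    (hN : 0 < N) (hh : h ≤ N) (ht : 0 < t) (hh0 : 0 < h) (hQ : 0 < Fintype.card Q)
    (hE : 4 * E0 * (2 * N) ^ t ≤ Fintype.card Q * h ^ t)
    (hcount : Fintype.card P * (N * Fintype.card C) ^ (h * t) * Fintype.card M *
      (4 * (2 * N) ^ t) < 2 ^ n * h ^ t) :
    ∃ x, ∀ ρ, t * Fintype.card Q ≤ 2 * ∑ q, (D x ρ q).card := by
  by_contra hcon
  push Not at hcon
  choose r hr using hcon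
  -- the sample
  have hg : ∀ x, ∃ g : Fin t → Fin h → Fin N,
      Fintype.card Q * h ^ t ≤
        2 * (2 * N) ^ t * (univ.filter fun q => ∀ k ∈ D x (r x) q, ∃ i j, g i j = k).card := by
    intro x
    set S := univ.filter fun q : Q => (D x (r x) q).card ≤ t with hS
    obtain ⟨g, hg⟩ := sampling hN hh S (D x (r x)) (fun q hq => (mem_filter.1 hq).2)
    refine ⟨g, ?_⟩
    have h1 : Fintype.card Q ≤ 2 * S.card := by
      have h2 : (univ.filter fun q : Q => ¬ (D x (r x) q).card ≤ t).card * t ≤
          ∑ q, (D x (r x) q).card := by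
        rw [← smul_eq_mul, ← sum_const]
        refine (Finset.sum_le_sum (g := fun q => (D x (r x) q).card) fun q hq => ?_).trans
          (Finset.sum_le_sum_of_subset (filter_subset _ _))
        have := (mem_filter.1 hq).2
        omega
      have h3 := card_filter_add_card_filter_not (s := (univ : Finset Q))
        (fun q => (D x (r x) q).card ≤ t)
      rw [card_univ, ← hS] at h3
      have h4 := hr x
      by_contra h5
      push Not at h5
      have h6 : Fintype.card Q < 2 * (univ.filter fun q : Q => ¬ (D x (r x) q).card ≤ t).card := by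
        omega
      have h7 : t * Fintype.card Q <
          2 * ((univ.filter fun q : Q => ¬ (D x (r x) q).card ≤ t).card * t) := by
        calc t * Fintype.card Q
            < t * (2 * (univ.filter fun q : Q => ¬ (D x (r x) q).card ≤ t).card) :=
              Nat.mul_lt_mul_of_pos_left h6 ht
          _ = _ := by ring
      omega
    calc Fintype.card Q * h ^ t ≤ 2 * S.card * h ^ t := Nat.mul_le_mul_right _ h1
      _ = 2 * (S.card * h ^ t) := by ring
      _ ≤ 2 * ((2 * N) ^ t * (S.filter fun q => ∀ k ∈ D x (r x) q, ∃ i j, g i j = k).card) :=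
          Nat.mul_le_mul_left _ hg
      _ = 2 * (2 * N) ^ t * (S.filter fun q => ∀ k ∈ D x (r x) q, ∃ i j, g i j = k).card := by
          ring
      _ ≤ _ := by
          refine Nat.mul_le_mul_left _ (Finset.card_le_card ?_)
          exact Finset.filter_subset_filter _ (subset_univ _)
  choose g hg using hg
  -- the code
  let code : (Fin n → ZMod 2) → P × (Fin t → Fin h → Fin N × C) × M := fun x =>
    (r x, (fun i j => (g x i j, memE x (r x) (g x i j))), memR x (r x))
  have hfib : ∀ a ∈ univ.image code, (univ.filter fun x => code x = a).card ≤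
      4 * (2 * N) ^ t / h ^ t := by
    intro a ha
    obtain ⟨x0, -, rfl⟩ := mem_image.1 ha
    rw [Nat.le_div_iff_mul_le (pow_pos hh0 _)]
    set R := univ.filter fun q => ∀ k ∈ D x0 (r x0) q, ∃ i j, g x0 i j = k with hR
    set K := univ.filter fun y : Fin n → ZMod 2 => ∀ q ∈ R, ∑ j, y j * s q j = 0 with hK
    have h1 : (univ.filter fun x => code x = code x0).card ≤ K.card := by
      refine Finset.card_le_card_of_injOn (fun x => x - x0) ?_ ?_
      · intro x hx
        simp only [coe_filter, mem_univ, true_and, Set.mem_ofPred_eq, code, Prod.mk.injEq] at hx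
        obtain ⟨e1, e2, e3⟩ := hx
        have e2' : ∀ i j, g x i j = g x0 i j ∧
            memE x (r x) (g x i j) = memE x0 (r x0) (g x0 i j) := by
          intro i j
          exact Prod.mk.inj (congrFun (congrFun e2 i) j)
        simp only [hK, coe_filter, mem_univ, true_and, Set.mem_ofPred_eq]
        intro q hq
        have hq' := (mem_filter.1 hq).2
        have h2 := hloc x0 x (r x0) q (fun k hk => by
          obtain ⟨i, j, hij⟩ := hq' k hk
          have := (e2' i j).2
          rw [(e2' i j).1, e1, hij] at this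
          exact this.symm) (by rw [← e3, e1])
        have h3 := hf x x0 (r x0) q
        rw [h2, sub_self] at h3
        simpa using h3.symm
      · intro x _ x' _ h
        simpa using h
    have h2 := kernel s E0 hs R
    rw [← hK] at h2
    have h3 := hg x0
    rw [← hR] at h3
    -- `|K| * h ^ t ≤ 4 * (2 N) ^ t`
    have h4 : K.card * (Fintype.card Q * h ^ t) ≤
        2 * (2 * N) ^ t * (Fintype.card Q + K.card * E0) := by
      calc K.card * (Fintype.card Q * h ^ t) ≤ K.card * (2 * (2 * N) ^ t * R.card) :=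
            Nat.mul_le_mul_left _ h3
        _ = 2 * (2 * N) ^ t * (K.card * R.card) := by ring
        _ ≤ _ := Nat.mul_le_mul_left _ h2
    have h5 : Fintype.card Q * (K.card * h ^ t) ≤ Fintype.card Q * (4 * (2 * N) ^ t) := by
      have h6 := Nat.mul_le_mul_left K.card hE
      nlinarith
    have h6 := Nat.le_of_mul_le_mul_left h5 hQ
    exact (Nat.mul_le_mul_right _ h1).trans h6
  have h1 := Finset.card_le_mul_card_image (f := code) univ _ hfib
  have h2 : (univ.image code).card ≤
      Fintype.card P * (N * Fintype.card C) ^ (h * t) * Fintype.card M := by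
    refine (card_le_univ _).trans (le_of_eq ?_)
    simp only [Fintype.card_prod, Fintype.card_fun, Fintype.card_fin]
    rw [← pow_mul]
    ring
  have h3 : (univ : Finset (Fin n → ZMod 2)).card = 2 ^ n := by
    simp [ZMod.card]
  rw [h3] at h1
  have h4 : 2 ^ n * h ^ t ≤ (4 * (2 * N) ^ t) *
      (Fintype.card P * (N * Fintype.card C) ^ (h * t) * Fintype.card M) := by
    calc 2 ^ n * h ^ t ≤ (4 * (2 * N) ^ t / h ^ t * (univ.image code).card) * h ^ t :=
          Nat.mul_le_mul_right _ h1
      _ = (4 * (2 * N) ^ t / h ^ t * h ^ t) * (univ.image code).card := by ring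
      _ ≤ (4 * (2 * N) ^ t) * (univ.image code).card :=
          Nat.mul_le_mul_right _ (Nat.div_mul_le_self _ _)
      _ ≤ _ := Nat.mul_le_mul_left _ h2
  have h5 : (4 * (2 * N) ^ t) *
      (Fintype.card P * (N * Fintype.card C) ^ (h * t) * Fintype.card M) =
      Fintype.card P * (N * Fintype.card C) ^ (h * t) * Fintype.card M *
      (4 * (2 * N) ^ t) := by ring
  omega

end Pool.Agent.W2helper59.PE
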