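import Mathlib

/-!
# Parsing expression grammars: definitions
-/

set_option autoImplicit false

namespace Pool.Agent.W2helper59.PE

/-- Parsing expressions with nonterminals in `N` and terminals in `A`: the empty expression,
terminals, nonterminals, sequence, prioritized choice and the not-predicate. -/
inductive PExp (N A : Type) : Type
  | eps : PExp N A
  | term : A → PExp N A
  | nt : N → PExp N A
  | seq : PExp N A → PExp N A → PExp N A
  | alt : PExp N A → PExp N A → PExp N A
  | neg : PExp N A → PExp N A

/-- A parsing expression grammar over the terminal alphabet `A`: a finite set `N` of nonterminals,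
exactly one rule for each nonterminal, and a start symbol. -/
structure PEG (A : Type) where
  /-- the nonterminals -/
  N : Type
  /-- there are finitely many nonterminals -/
  finite : Finite N
  /-- the rules -/
  rule : N → PExp N A
  /-- the start symbol -/
  start : N

variable {A : Type}

/-- `G.Res e w r` says that `R(e, w)` is defined and equal to `r`, where `none` is the failure
symbol `F` and `some v` is the word `v` (the unconsumed part of `w`). It is the least relation
which satisfies the recursive equations of `R`; so `R(e, w)` is undefined if there is no `r`. -/
inductive PEG.Res (G : PEG A) : PExp G.N A → List A → Option (List A) → Prop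
  | eps (w : List A) : G.Res .eps w (some w)
  | term (a : A) (s : List A) : G.Res (.term a) (a :: s) (some s)
  | termFail (a : A) (w : List A) : w.head? ≠ some a → G.Res (.term a) w none
  | seqOk (e₁ e₂ : PExp G.N A) (w v : List A) (r : Option (List A)) :
      G.Res e₁ w (some v) → G.Res e₂ v r → G.Res (.seq e₁ e₂) w r
  | seqFail (e₁ e₂ : PExp G.N A) (w : List A) : G.Res e₁ w none → G.Res (.seq e₁ e₂) w none
  | nt (X : G.N) (w : List A) (r : Option (List A)) : G.Res (G.rule X) w r → G.Res (.nt X) w r
  | altOk (e₁ e₂ : PExp G.N A) (w v : List A) :
      G.Res e₁ w (some v) → G.Res (.alt e₁ e₂) w (some v)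
  | altFail (e₁ e₂ : PExp G.N A) (w : List A) (r : Option (List A)) :
      G.Res e₁ w none → G.Res e₂ w r → G.Res (.alt e₁ e₂) w r
  | negOk (e : PExp G.N A) (w : List A) : G.Res e w none → G.Res (.neg e) w (some w)
  | negFail (e : PExp G.N A) (w v : List A) : G.Res e w (some v) → G.Res (.neg e) w none

/-- The language of a parsing expression grammar: the words `w` with `R(S, w) = ε`. -/
def PEG.language (G : PEG A) : Language A := {w | G.Res (.nt G.start) w (some [])}

/-- Parsing expression languages. -/
def IsPEL (L : Language A) : Prop := ∃ G : PEG A, G.language = L

end Pool.Agent.W2helper59.PE
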