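import Mathlib

/-!
# Parameters
-/

set_option autoImplicit false

namespace Pool.Agent.W2helper59.PE

open Finset

/-- The number of items of the epochs before the epoch `i`. -/
def SS (γ : ℕ) : ℕ → ℕ
  | 0 => 0
  | i + 1 => SS γ i + 2 ^ (γ * (i + 1))

theorem SS_le (γ : ℕ) (hγ : 1 ≤ γ) (i : ℕ) : SS γ i ≤ 2 ^ (γ * i + 1) := by
  induction i with
  | zero => simp [SS]
  | succ i ih =>
    rw [SS]
    have h1 : 2 ^ (γ * i + 1) ≤ 2 ^ (γ * (i + 1)) := Nat.pow_le_pow_right (by norm_num) (by nlinarith)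
    have h2 : 2 ^ (γ * (i + 1) + 1) = 2 * 2 ^ (γ * (i + 1)) := by ring
    omega

theorem SS_mono (γ : ℕ) {i j : ℕ} (h : i ≤ j) : SS γ i ≤ SS γ j := by
  induction h with
  | refl => rfl
  | step _ ih => exact ih.trans (Nat.le_add_right _ _)

theorem two_mul_le {a k0 γ i : ℕ} (hγ : γ = 3 * a + k0 + 5) (ha : 3 ≤ 2 ^ a) :
    2 * (2 ^ (γ * (i + 1)) * (2 ^ a + 3)) ≤ 2 ^ γ * 2 ^ (γ * i + a + 2) := by
  have h1 : 2 ^ a + 3 ≤ 2 * 2 ^ a := by omega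
  calc 2 * (2 ^ (γ * (i + 1)) * (2 ^ a + 3)) ≤ 2 * (2 ^ (γ * (i + 1)) * (2 * 2 ^ a)) := by gcongr
    _ = 2 ^ γ * 2 ^ (γ * i + a + 2) := by
      rw [← pow_succ', ← pow_add, ← pow_succ', ← pow_add]
      congr 1
      ring

theorem num_A {a k0 γ i E : ℕ} (hγ : γ = 3 * a + k0 + 5) (ha : 3 ≤ 2 ^ a) (hi : i < E)
    (hE : 2 * γ * E + 2 ≤ 2 ^ a) :
    4 * (2 ^ (γ * (i + 1)) * 2 ^ (2 ^ a)) * (2 * (2 ^ (γ * (i + 1)) * (2 ^ a + 3))) ^ E ≤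
      2 ^ (2 ^ a) * 2 ^ (2 ^ a) * (2 ^ (γ * i + a + 2)) ^ E := by
  have h1 : (2 * (2 ^ (γ * (i + 1)) * (2 ^ a + 3))) ^ E ≤
      2 ^ (γ * E) * (2 ^ (γ * i + a + 2)) ^ E := by
    rw [pow_mul 2 γ E, ← mul_pow]
    exact Nat.pow_le_pow_left (two_mul_le hγ ha) _
  have h2 : 4 * (2 ^ (γ * (i + 1)) * 2 ^ (2 ^ a)) * 2 ^ (γ * E) ≤ 2 ^ (2 ^ a) * 2 ^ (2 ^ a) := by
    have h3 : γ * (i + 1) ≤ γ * E := Nat.mul_le_mul_left _ hi
    calc 4 * (2 ^ (γ * (i + 1)) * 2 ^ (2 ^ a)) * 2 ^ (γ * E)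
        = 2 ^ (2 + γ * (i + 1) + γ * E) * 2 ^ (2 ^ a) := by
          rw [pow_add, pow_add]; ring
      _ ≤ 2 ^ (2 ^ a) * 2 ^ (2 ^ a) := by
          refine Nat.mul_le_mul_right _ (Nat.pow_le_pow_right (by norm_num) ?_)
          nlinarith
  calc _ ≤ 4 * (2 ^ (γ * (i + 1)) * 2 ^ (2 ^ a)) * (2 ^ (γ * E) * (2 ^ (γ * i + a + 2)) ^ E) := by
        gcongr
    _ = (4 * (2 ^ (γ * (i + 1)) * 2 ^ (2 ^ a)) * 2 ^ (γ * E)) * (2 ^ (γ * i + a + 2)) ^ E := by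
        ring
    _ ≤ _ := Nat.mul_le_mul_right _ h2

/-- The estimate of the exponents. -/
theorem exp_est {A k X E R γ : ℕ} (hA : 3 ≤ A) (hk : 1 ≤ k) (hX : 1 ≤ X) (hR : R ≤ 2 * X)
    (hγ : 5 ≤ γ) (hE : 2 * γ * E + 2 ≤ A) :
    R + 2 * (A * k) * (4 * A * X * E) + A * k * (1 + (A + 3) * R) + 2 + γ * E <
      32 * (A * A * A * k) * X := by
  have hE1 : 10 * E ≤ A := by nlinarith
  have hγE : 2 + γ * E ≤ A := by nlinarith
  have t1 : 2 * (A * k) * (4 * A * X * E) * 5 ≤ 4 * (A * A * A * k * X) := by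
    calc 2 * (A * k) * (4 * A * X * E) * 5 = 4 * (A * A * k * X) * (10 * E) := by ring
      _ ≤ 4 * (A * A * k * X) * A := Nat.mul_le_mul_left _ hE1
      _ = _ := by ring
  have t2 : A * k * (1 + (A + 3) * R) ≤ 5 * (A * A * k * X) := by
    have : A * k * 1 ≤ A * k * (A * X) := by
      refine Nat.mul_le_mul_left _ ?_
      nlinarith
    calc A * k * (1 + (A + 3) * R) ≤ A * k * (1 + (A + A) * (2 * X)) := by gcongr
      _ = A * k * 1 + 4 * (A * A * k * X) := by ring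
      _ ≤ A * k * (A * X) + 4 * (A * A * k * X) := Nat.add_le_add_right this _
      _ = _ := by ring
  have t4 : 3 * (A * A * k * X) ≤ A * A * A * k * X := by
    calc 3 * (A * A * k * X) ≤ A * (A * A * k * X) := Nat.mul_le_mul_right _ hA
      _ = _ := by ring
  have t5 : A * X ≤ A * A * k * X := by
    have : A * 1 ≤ A * (A * k) := Nat.mul_le_mul_left _ (by nlinarith)
    calc A * X = A * 1 * X := by ring
      _ ≤ A * (A * k) * X := Nat.mul_le_mul_right _ this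
      _ = _ := by ring
  have t6 : X ≤ A * X := by nlinarith
  have t7 : A ≤ A * X := by nlinarith
  have t8 : 0 < A * A * A * k * X := by positivity
  have t9 : 32 * (A * A * A * k) * X = 32 * (A * A * A * k * X) := by ring
  rw [t9]
  clear hE
  generalize A * A * A * k * X = u at t1 t4 t8 ⊢
  generalize A * A * k * X = v at t2 t4 t5
  generalize 2 * (A * k) * (4 * A * X * E) = y at t1 ⊢
  generalize A * k * (1 + (A + 3) * R) = z at t2 ⊢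
  generalize A * X = w at t5 t6 t7
  generalize γ * E = g at hγE ⊢
  omega

theorem num_B {a k0 γ i E R c : ℕ} (hγ : γ = 3 * a + k0 + 5) (ha : 3 ≤ 2 ^ a) (hi : i < E)
    (hE : 2 * γ * E + 2 ≤ 2 ^ a) (hR : R ≤ 2 ^ (γ * i + 1)) (hc : c ≤ 2 ^ (2 ^ (a + k0)))
    (hN : 2 ^ (γ * (i + 1)) * (2 ^ a + 3) ≤ 2 ^ (2 ^ (a + k0))) :
    2 ^ R * (2 ^ (γ * (i + 1)) * (2 ^ a + 3) * c) ^ (2 ^ (γ * i + a + 2) * E) *
      c ^ (1 + (2 ^ a + 3) * R) *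
      (4 * (2 * (2 ^ (γ * (i + 1)) * (2 ^ a + 3))) ^ E) <
      2 ^ (2 ^ (γ * (i + 1))) * (2 ^ (γ * i + a + 2)) ^ E := by
  set b := 2 ^ (a + k0) with hb
  have h1 : (2 * (2 ^ (γ * (i + 1)) * (2 ^ a + 3))) ^ E ≤
      2 ^ (γ * E) * (2 ^ (γ * i + a + 2)) ^ E := by
    rw [pow_mul 2 γ E, ← mul_pow]
    exact Nat.pow_le_pow_left (two_mul_le hγ ha) _
  have h2 : (2 ^ (γ * (i + 1)) * (2 ^ a + 3) * c) ^ (2 ^ (γ * i + a + 2) * E) ≤
      2 ^ (2 * b * (2 ^ (γ * i + a + 2) * E)) := by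
    rw [pow_mul 2 (2 * b)]
    refine Nat.pow_le_pow_left ?_ _
    calc 2 ^ (γ * (i + 1)) * (2 ^ a + 3) * c ≤ 2 ^ b * 2 ^ b := Nat.mul_le_mul hN hc
      _ = 2 ^ (2 * b) := by rw [← pow_add]; congr 1; ring
  have h3 : c ^ (1 + (2 ^ a + 3) * R) ≤ 2 ^ (b * (1 + (2 ^ a + 3) * R)) := by
    rw [pow_mul 2 b]
    exact Nat.pow_le_pow_left hc _
  have hlt : R + 2 * b * (2 ^ (γ * i + a + 2) * E) + b * (1 + (2 ^ a + 3) * R) + 2 + γ * E <
      2 ^ (γ * (i + 1)) := by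
    have hX1 : 1 ≤ 2 ^ (γ * i) := Nat.one_le_two_pow
    have hkb : b = 2 ^ a * 2 ^ k0 := by rw [hb, pow_add]
    have hk1 : 1 ≤ 2 ^ k0 := Nat.one_le_two_pow
    have hn : 2 ^ (γ * (i + 1)) = 32 * (2 ^ a * 2 ^ a * 2 ^ a * 2 ^ k0) * 2 ^ (γ * i) := by
      rw [mul_add, mul_one, pow_add, hγ, pow_add 2 (3 * a + k0), pow_add 2 (3 * a)]
      have : 2 ^ (3 * a) = 2 ^ a * 2 ^ a * 2 ^ a := by
        rw [← pow_add, ← pow_add]; congr 1; ring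
      rw [this]
      ring
    have hh : 2 ^ (γ * i + a + 2) = 4 * 2 ^ a * 2 ^ (γ * i) := by
      rw [pow_add, pow_add]; ring
    have hR' : R ≤ 2 * 2 ^ (γ * i) := by
      refine hR.trans (le_of_eq ?_)
      rw [pow_succ]; ring
    rw [hn, hh, hkb]
    exact exp_est ha hk1 hX1 hR' (by omega) hE
  calc _ ≤ 2 ^ R * 2 ^ (2 * b * (2 ^ (γ * i + a + 2) * E)) * 2 ^ (b * (1 + (2 ^ a + 3) * R)) *
        (4 * (2 ^ (γ * E) * (2 ^ (γ * i + a + 2)) ^ E)) := by gcongr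
    _ = 2 ^ (R + 2 * b * (2 ^ (γ * i + a + 2) * E) + b * (1 + (2 ^ a + 3) * R) + 2 + γ * E) *
        (2 ^ (γ * i + a + 2)) ^ E := by
        simp only [pow_add]
        ring
    _ < _ := by
        refine Nat.mul_lt_mul_of_pos_right ?_ (by positivity)
        exact Nat.pow_lt_pow_right (by norm_num) hlt

/-- A large number. -/
theorem exists_large (C k : ℕ) : ∃ a, k ≤ a ∧ C * a ^ 2 < 2 ^ a := by
  have h1 := tendsto_pow_const_div_const_pow_of_one_lt 2 (by norm_num : (1 : ℝ) < 2)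
  have h2 : ∀ᶠ n : ℕ in Filter.atTop, (n : ℝ) ^ 2 / 2 ^ n < 1 / (C + 1) :=
    h1.eventually (gt_mem_nhds (by positivity))
  obtain ⟨a, h3, h4⟩ := (h2.and (Filter.eventually_ge_atTop k)).exists
  refine ⟨a, h4, ?_⟩
  rw [div_lt_div_iff₀ (by positivity) (by positivity), one_mul] at h3
  have h5 : (C : ℝ) * (a : ℝ) ^ 2 < 2 ^ a := by
    have : (0 : ℝ) ≤ (a : ℝ) ^ 2 := by positivity
    nlinarith
  exact_mod_cast h5

end Pool.Agent.W2helper59.PE
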