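import Pool.Agent.W2helper59.PE.Main
import Pool.Agent.W2helper59.PE.Num

/-!
# `L₁ Σ*` is not a parsing expression language
-/

set_option autoImplicit false

namespace Pool.Agent.W2helper59.PE

open Finset

theorem length_block (q : List Bool × List Bool) :
    (block q).length = q.1.length + q.2.length + 2 := by
  simp [block, bits]; omega

theorem length_blocks (m : ℕ) (l : List (List Bool × List Bool))
    (h : ∀ q ∈ l, q.1.length = m ∧ q.2.length = m) :
    (l.flatMap block).length = l.length * (2 * m + 2) := by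
  induction l with
  | nil => simp
  | cons q l ih =>
    obtain ⟨h1, h2⟩ := h q (by simp)
    rw [List.flatMap_cons, List.length_append, length_block, h1, h2,
      ih fun p hp => h p (by simp [hp]), List.length_cons]
    ring

theorem add_le_two_pow {a : ℕ} (ha : 2 ≤ a) : a + 3 ≤ 2 ^ (a + 1) := by
  induction a, ha using Nat.le_induction with
  | base => norm_num
  | succ a _ ih => rw [pow_succ]; omega

/-- The number of the cells. -/
theorem card_cell {g a K : ℕ} {α : Type} [Fintype α] [DecidableEq α] (hg : Fintype.card α = g)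
    (ha : 2 ≤ a) (hK : K + 3 ≤ 2 ^ (2 ^ (a + 2))) :
    Fintype.card (Option Sym × (α → Option (Option (Fin (K + 1))))) ≤
      2 ^ (2 ^ (a + (g + 3))) := by
  rw [Fintype.card_prod, Fintype.card_fun, Fintype.card_option, Fintype.card_option,
    Fintype.card_option, Fintype.card_fin, hg]
  have h0 : Fintype.card Sym = 8 := rfl
  rw [h0]
  have h1 : (K + 1 + 1 + 1) ^ g ≤ 2 ^ (2 ^ (a + 2) * g) := by
    rw [pow_mul]
    exact Nat.pow_le_pow_left hK g
  have h2 : (8 + 1 : ℕ) ≤ 2 ^ (2 ^ (a + 2)) := by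
    have h3 : 2 ^ 2 ≤ 2 ^ (a + 2) := Nat.pow_le_pow_right (by norm_num) (by omega)
    calc 8 + 1 ≤ 2 ^ (2 ^ 2) := by norm_num
      _ ≤ _ := Nat.pow_le_pow_right (by norm_num) h3
  calc (8 + 1) * (K + 1 + 1 + 1) ^ g ≤ 2 ^ (2 ^ (a + 2)) * 2 ^ (2 ^ (a + 2) * g) :=
        Nat.mul_le_mul h2 h1
    _ = 2 ^ (2 ^ (a + 2) * (g + 1)) := by rw [← pow_add]; congr 1; ring
    _ ≤ 2 ^ (2 ^ (a + (g + 3))) := by
        refine Nat.pow_le_pow_right (by norm_num) ?_
        have h4 : g + 1 ≤ 2 ^ (g + 1) := Nat.lt_two_pow_self.le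
        calc 2 ^ (a + 2) * (g + 1) ≤ 2 ^ (a + 2) * 2 ^ (g + 1) := Nat.mul_le_mul_left _ h4
          _ = 2 ^ (a + (g + 3)) := by rw [← pow_add]; congr 1; ring

open Classical in
theorem not_isPEL : ¬ IsPEL (L1 * (⊤ : Language Sym)) := by
  rintro ⟨G, hG⟩
  have := G.finite
  let _ : Fintype G.N := Fintype.ofFinite _
  obtain ⟨g, hg⟩ : ∃ g, Fintype.card G.N = g := ⟨_, rfl⟩
  obtain ⟨T, hT⟩ : ∃ T, G.size = T := ⟨_, rfl⟩
  -- the parameters
  obtain ⟨a, ha, hbig⟩ := exists_large (4096 * (T + 1)) (g + 10)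
  obtain ⟨k0, hk0⟩ : ∃ k0, k0 = g + 3 := ⟨_, rfl⟩
  obtain ⟨γ, hγ⟩ : ∃ γ, γ = 3 * a + k0 + 5 := ⟨_, rfl⟩
  have hγa : γ ≤ 4 * a := by omega
  have hA : 4096 * a ^ 2 < 2 ^ a := by nlinarith
  obtain ⟨E, hEdef⟩ : ∃ E, E = (2 ^ a - 2) / (2 * γ) := ⟨_, rfl⟩
  have hE1 : 2 * γ * E + 2 ≤ 2 ^ a := by
    have h1 := Nat.mul_div_le (2 ^ a - 2) (2 * γ)
    rw [← hEdef] at h1
    have : 2 ≤ 2 ^ a := by nlinarith
    omega
  have hE2 : 2 ^ a < 2 * γ * (E + 1) + 2 := by
    have h1 := Nat.lt_mul_div_succ (2 ^ a - 2) (b := 2 * γ) (by omega)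
    rw [← hEdef] at h1
    omega
  have hEpos : 0 < E := by
    rcases Nat.eq_zero_or_pos E with h0 | h0
    · exfalso
      rw [h0] at hE2
      nlinarith
    · exact h0
  have hET : 4 * 2 ^ a * T < E * E := by
    by_contra hcon
    push Not at hcon
    have h1 : 2 ^ a ≤ 2 * γ * (E + 1) + 1 := by omega
    have h2 : E + 1 ≤ 2 * E := by omega
    have h3 : 2 ^ a ≤ 4 * γ * E + 1 := by nlinarith
    have h4 : 2 ^ a ≤ 8 * γ * E := by nlinarith
    have h5 : 2 ^ a ≤ 32 * a * E := by nlinarith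
    have h6 : 2 ^ a * 2 ^ a ≤ (32 * a * E) * (32 * a * E) := Nat.mul_le_mul h5 h5
    have h7 : (32 * a * E) * (32 * a * E) = 1024 * a ^ 2 * (E * E) := by ring
    have h8 : 1024 * a ^ 2 * (E * E) ≤ 1024 * a ^ 2 * (4 * 2 ^ a * T) :=
      Nat.mul_le_mul_left _ hcon
    have h9 : 1024 * a ^ 2 * (4 * 2 ^ a * T) = 2 ^ a * (4096 * T * a ^ 2) := by ring
    have h10 : 2 ^ a * 2 ^ a ≤ 2 ^ a * (4096 * T * a ^ 2) := by
      rw [← h9]; exact h6.trans (h7 ▸ h8)
    have h11 := Nat.le_of_mul_le_mul_left h10 (by positivity)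
    nlinarith
  have hA3 : 3 ≤ 2 ^ a := by nlinarith
  have ha2 : 2 ≤ a := by omega
  -- the queries
  obtain ⟨Q, iQ, lab, s, hQ, hlab, hout, hbias⟩ := exists_queries (2 ^ a) (by positivity)
  obtain ⟨m, hm⟩ : ∃ m, m = 2 ^ a := ⟨_, rfl⟩
  rw [← hm] at hQ hlab hout hbias
  obtain ⟨Z, hZ⟩ : ∃ Z, Z = (univ.toList.map lab).flatMap block := ⟨_, rfl⟩
  have hZlen : Z.length = 2 ^ m * 2 ^ m * (2 * m + 2) := by
    rw [hZ, length_blocks m]
    · simp [hQ]
    · intro p hp
      obtain ⟨q', -, rfl⟩ := List.mem_map.1 hp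
      exact hlab q'
  obtain ⟨K, hK⟩ : ∃ K, K = 1 + (m + 3) * SS γ E + Z.length := ⟨_, rfl⟩
  have hγE : γ * E + 1 ≤ 2 ^ a := by nlinarith
  have hm3 : m + 3 ≤ 2 ^ (a + 1) := by rw [hm, pow_succ]; omega
  have ha3 := add_le_two_pow ha2
  have hK2 : K + 3 ≤ 2 ^ (2 ^ (a + 2)) := by
    have h1 : SS γ E ≤ 2 ^ m := (SS_le γ (by omega) E).trans
      (Nat.pow_le_pow_right (by norm_num) (by rw [hm]; exact hγE))
    have h2 : (m + 3) * SS γ E ≤ 2 ^ (a + 1) * 2 ^ m := Nat.mul_le_mul hm3 h1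
    have h3 : 2 * m + 2 ≤ 2 ^ (a + 2) := by
      have : 2 ^ (a + 2) = 4 * 2 ^ a := by ring
      omega
    have h4 : Z.length ≤ 2 ^ m * 2 ^ m * 2 ^ (a + 2) := by
      rw [hZlen]; exact Nat.mul_le_mul_left _ h3
    have h5 : 2 ^ (a + 1) * 2 ^ m ≤ 2 ^ m * 2 ^ m * 2 ^ (a + 1) := by
      have : 1 ≤ 2 ^ m := Nat.one_le_two_pow
      nlinarith [Nat.zero_le (2 ^ (a + 1) * 2 ^ m)]
    have h6 : 4 ≤ 2 ^ m * 2 ^ m * 2 ^ (a + 1) := by
      have h7 : 1 ≤ 2 ^ m := Nat.one_le_two_pow
      have h8 : 2 ^ 2 ≤ 2 ^ (a + 1) := Nat.pow_le_pow_right (by norm_num) (by omega)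
      nlinarith
    have h7 : 2 ^ m * 2 ^ m * 2 ^ (a + 3) = 4 * (2 ^ m * 2 ^ m * 2 ^ (a + 1)) := by
      rw [pow_add, pow_add]; ring
    have h8 : 2 ^ m * 2 ^ m * 2 ^ (a + 2) = 2 * (2 ^ m * 2 ^ m * 2 ^ (a + 1)) := by
      rw [pow_add, pow_add]; ring
    calc K + 3 ≤ 2 ^ m * 2 ^ m * 2 ^ (a + 3) := by omega
      _ = 2 ^ (2 * m + (a + 3)) := by rw [← pow_add, ← pow_add]; congr 1; ring
      _ ≤ 2 ^ (2 ^ (a + 2)) := by
          refine Nat.pow_le_pow_right (by norm_num) ?_
          have : 2 ^ (a + 2) = 2 * 2 ^ a + 2 ^ (a + 1) := by ring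
          omega
  have hcell := card_cell (K := K) (α := G.N) hg ha2 hK2
  rw [← hk0] at hcell
  -- the choice of the epochs
  let Cond : ℕ → List Bool → Prop := fun j B => E * Fintype.card Q ≤
    2 * ∑ q, ((look G (query (lab q)) (vword m Z B)) ∩
      Ioc (Z.length + (m + 3) * (SS γ E - SS γ (j + 1)))
        (Z.length + (m + 3) * (SS γ E - SS γ j))).card
  have key : ∀ d, d ≤ E → ∃ old : List Bool, old.length = SS γ E - SS γ (E - d) ∧
      ∀ ρ : List Bool, ρ.length = SS γ (E - d) → ∀ j, E - d ≤ j → j < E →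
        Cond j (ρ ++ old) := by
    intro d
    induction d with
    | zero =>
      intro _
      refine ⟨[], by simp, fun ρ _ j h1 h2 => ?_⟩
      omega
    | succ d ih =>
      intro hd
      obtain ⟨old, hold, hcond⟩ := ih (by omega)
      obtain ⟨i, hi⟩ : ∃ i, i = E - (d + 1) := ⟨_, rfl⟩
      have hi1 : E - d = i + 1 := by omega
      rw [hi1] at hold hcond
      rw [← hi]
      have hiE : i < E := by omega
      have hSS1 : SS γ (i + 1) ≤ SS γ E := SS_mono γ (by omega)
      have hSS2 : SS γ (i + 1) = SS γ i + 2 ^ (γ * (i + 1)) := rfl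
      have hNb : 2 ^ (γ * (i + 1)) * (2 ^ a + 3) ≤ 2 ^ (2 ^ (a + k0)) := by
        calc 2 ^ (γ * (i + 1)) * (2 ^ a + 3) ≤ 2 ^ (2 ^ a) * 2 ^ (a + 1) := by
              refine Nat.mul_le_mul (Nat.pow_le_pow_right (by norm_num) ?_) (by rw [← hm]; exact hm3)
              have : γ * (i + 1) ≤ γ * E := Nat.mul_le_mul_left _ hiE
              omega
          _ = 2 ^ (2 ^ a + (a + 1)) := by rw [← pow_add]
          _ ≤ 2 ^ (2 ^ (a + 2)) := by
              refine Nat.pow_le_pow_right (by norm_num) ?_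
              have : 2 ^ (a + 2) = 2 * 2 ^ a + 2 ^ (a + 1) := by ring
              omega
          _ ≤ _ := Nat.pow_le_pow_right (by norm_num)
              (Nat.pow_le_pow_right (by norm_num) (by omega))
      have hhN : 2 ^ (γ * i + a + 2) ≤ 2 ^ (γ * (i + 1)) * (2 ^ a + 3) := by
        calc 2 ^ (γ * i + a + 2) ≤ 2 ^ (γ * (i + 1)) * 1 := by
              rw [mul_one]
              refine Nat.pow_le_pow_right (by norm_num) ?_
              rw [mul_add, mul_one, hγ]
              omega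
          _ ≤ _ := Nat.mul_le_mul_left _ (by omega)
      obtain ⟨x, hx⟩ := epoch_step G hG m (by rw [hm]; positivity) lab s hQ hlab hout hbias Z hZ
        old (2 ^ (γ * (i + 1))) (SS γ i) E (2 ^ (γ * i + a + 2)) K
        (by
          rw [hold, hK]
          have : SS γ i + 2 ^ (γ * (i + 1)) + (SS γ E - SS γ (i + 1)) = SS γ E := by omega
          rw [this])
        (by positivity) (by rw [hm]; exact hhN) hEpos (by positivity)
        (by rw [hQ, hm]; exact num_A hγ hA3 hiE hE1)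
        (by rw [hm]; exact num_B hγ hA3 hiE hE1 (SS_le γ (by omega) i) hcell hNb)
      refine ⟨List.ofFn (fun j => tb (x j)) ++ old, ?_, ?_⟩
      · rw [List.length_append, List.length_ofFn, hold]
        have e0 : 2 ^ (γ * (i + 1)) + (SS γ E - SS γ (i + 1)) = SS γ E - SS γ i := by
          generalize 2 ^ (γ * (i + 1)) = y at hSS2 ⊢
          omega
        exact e0
      · intro ρ hρ j hj1 hj2
        rcases Nat.eq_or_lt_of_le hj1 with hj3 | hj3
        · subst hj3
          obtain ⟨f, hf⟩ : ∃ f : Fin (SS γ i) → Bool, List.ofFn f = ρ := by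
            rw [← hρ]
            exact ⟨ρ.get, List.ofFn_get ρ⟩
          have := hx f
          rw [hf, hold] at this
          have e : SS γ E - SS γ (i + 1) + 2 ^ (γ * (i + 1)) = SS γ E - SS γ i := by
            generalize 2 ^ (γ * (i + 1)) = y at hSS2 ⊢
            omega
          rw [e] at this
          exact this
        · have := hcond (ρ ++ List.ofFn (fun j => tb (x j))) (by
            rw [List.length_append, List.length_ofFn, hρ, hSS2]) j (by omega) hj2
          rwa [List.append_assoc] at this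
  obtain ⟨B, -, hB⟩ := key E le_rfl
  have hB' : ∀ j, j < E → Cond j B := by
    intro j hj
    have := hB [] (by simp [SS]) j (by omega) hj
    simpa using this
  -- the final estimate
  have hsum : ∀ q, ∑ j ∈ range E, ((look G (query (lab q)) (vword m Z B)) ∩
      Ioc (Z.length + (m + 3) * (SS γ E - SS γ (j + 1)))
        (Z.length + (m + 3) * (SS γ E - SS γ j))).card ≤ 2 * m * T := by
    intro q
    rw [← Finset.card_biUnion]
    · refine (Finset.card_le_card (t := look G (query (lab q)) (vword m Z B)) ?_).trans ?_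
      · intro x hx
        simp only [mem_biUnion, mem_inter] at hx
        obtain ⟨_, _, hx, _⟩ := hx
        exact hx
      · refine (card_look _ _).trans ?_
        rw [length_query, (hlab q).1, (hlab q).2, hT, two_mul]
    · have hdis : ∀ j j', j < j' → Disjoint ((look G (query (lab q)) (vword m Z B)) ∩
          Ioc (Z.length + (m + 3) * (SS γ E - SS γ (j + 1)))
            (Z.length + (m + 3) * (SS γ E - SS γ j)))
          ((look G (query (lab q)) (vword m Z B)) ∩
          Ioc (Z.length + (m + 3) * (SS γ E - SS γ (j' + 1)))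
            (Z.length + (m + 3) * (SS γ E - SS γ j'))) := by
        intro j j' hjj
        rw [Finset.disjoint_left]
        intro x hx hx'
        simp only [mem_inter, mem_Ioc] at hx hx'
        have h1 : SS γ (j + 1) ≤ SS γ j' := SS_mono γ hjj
        have h2 : (m + 3) * (SS γ E - SS γ j') ≤ (m + 3) * (SS γ E - SS γ (j + 1)) :=
          Nat.mul_le_mul_left _ (by omega)
        omega
      intro j _ j' _ hne
      rcases Nat.lt_or_gt_of_ne hne with h | h
      · exact hdis j j' h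
      · exact (hdis j' j h).symm
  have h1 : E * (E * Fintype.card Q) ≤ 2 * (Fintype.card Q * (2 * m * T)) := by
    calc E * (E * Fintype.card Q) = ∑ _j ∈ range E, E * Fintype.card Q := by simp
      _ ≤ ∑ j ∈ range E, 2 * ∑ q, ((look G (query (lab q)) (vword m Z B)) ∩
          Ioc (Z.length + (m + 3) * (SS γ E - SS γ (j + 1)))
            (Z.length + (m + 3) * (SS γ E - SS γ j))).card :=
          Finset.sum_le_sum fun j hj => hB' j (Finset.mem_range.1 hj)
      _ = 2 * ∑ q, ∑ j ∈ range E, ((look G (query (lab q)) (vword m Z B)) ∩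
          Ioc (Z.length + (m + 3) * (SS γ E - SS γ (j + 1)))
            (Z.length + (m + 3) * (SS γ E - SS γ j))).card := by
          rw [← Finset.mul_sum, Finset.sum_comm]
      _ ≤ 2 * ∑ _q : Q, 2 * m * T := Nat.mul_le_mul_left _ (Finset.sum_le_sum fun q _ => hsum q)
      _ = _ := by simp
  have hQpos : 0 < Fintype.card Q := by rw [hQ]; positivity
  have h2 : Fintype.card Q * (E * E) ≤ Fintype.card Q * (4 * m * T) := by
    calc Fintype.card Q * (E * E) = E * (E * Fintype.card Q) := by ring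
      _ ≤ _ := h1
      _ = _ := by ring
  have h3 := Nat.le_of_mul_le_mul_left h2 hQpos
  rw [hm] at h3
  omega

end Pool.Agent.W2helper59.PE
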