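import Pool.Agent.W2helper59.PE.Basic

/-!
# The language `L₁`

Words over eight symbols are read from the right to the left. They drive a small list machine.
-/

set_option autoImplicit false

namespace Pool.Agent.W2helper59.PE

open PEG

/-- The alphabet. -/
inductive Sym
  | b0 | b1 | m | n | r | s | w | x
  deriving DecidableEq

instance : Fintype Sym := ⟨{.b0, .b1, .m, .n, .r, .s, .w, .x}, by rintro (_ | _) <;> decide⟩

/-- The states of the machine: `fresh` (nothing was read), `loading`, an accumulator, an output bit,
a comparison bit and four lists of bits. -/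
structure St where
  fresh : Bool
  loading : Bool
  acc : Bool
  out : Bool
  ok : Bool
  lab : List Bool
  win : List Bool
  pa : List Bool
  pb : List Bool

/-- The initial state. -/
def St.init : St := ⟨true, false, false, false, false, [], [], [], []⟩

/-- The effect of a symbol. -/
def step : Sym → St → St
  | .b0, t => { t with fresh := false, lab := if t.loading then false :: t.lab else t.lab,
                       ok := t.ok && !(t.pa.headD false), pa := t.pa.tail }
  | .b1, t => { t with fresh := false, lab := if t.loading then true :: t.lab else t.lab,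
                       ok := t.ok && t.pa.headD false, pa := t.pa.tail }
  | .m, t => { t with fresh := false, loading := t.fresh }
  | .n, t => { t with fresh := false, win := if t.loading then t.lab else t.win }
  | .r, t => { t with fresh := false, loading := false, acc := false, ok := true, pa := t.lab,
                      pb := t.win }
  | .s, t => { t with fresh := false, loading := false,
                      acc := xor t.acc (t.pa.headD false && t.pb.headD false),
                      pa := t.pa.tail, pb := t.pb.tail }
  | .w, t => { t with fresh := false, loading := false, win := t.acc :: t.win }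
  | .x, t => { t with fresh := false, loading := false, out := xor t.out t.acc }

/-- The state after a word was read, from the right to the left, by the machine in the state `t`. -/
def runFrom (u : List Sym) (t : St) : St := u.foldr step t

/-- The state after the whole word was read. -/
def run (u : List Sym) : St := runFrom u St.init

@[simp] theorem run_nil : run [] = St.init := rfl

@[simp] theorem run_cons (a : Sym) (u : List Sym) : run (a :: u) = step a (run u) := rfl

theorem runFrom_append (u v : List Sym) (t : St) :
    runFrom (u ++ v) t = runFrom u (runFrom v t) := by simp [runFrom]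

theorem run_append (u v : List Sym) : run (u ++ v) = runFrom u (run v) := runFrom_append _ _ _

@[simp] theorem runFrom_nil (t : St) : runFrom [] t = t := rfl

@[simp] theorem runFrom_cons (a : Sym) (u : List Sym) (t : St) :
    runFrom (a :: u) t = step a (runFrom u t) := rfl

/-- The language `L₁`. -/
def L1 : Language Sym := {u | (run u).out = true ∧ (run u).ok = true}

/-- The nonterminals. -/
inductive NT
  | load | acc | out | ok | lab | win | pa | pb | car | cdr | all | start
  deriving DecidableEq

instance : Fintype NT := ⟨{.load, .acc, .out, .ok, .lab, .win, .pa, .pb, .car, .cdr, .all, .start},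
  by rintro (_ | _) <;> decide⟩

/-- Expressions. -/
abbrev E := PExp NT Sym

/-- The and-predicate. -/
def amp (e : E) : E := .neg (.neg e)

/-- One of the given symbols. -/
def oneOf : List Sym → E
  | [] => .neg .eps
  | a :: l => .alt (.term a) (oneOf l)

/-- Any symbol. -/
def dot : E := oneOf [.b0, .b1, .m, .n, .r, .s, .w, .x]

/-- The head of the list `pa` is `1`. -/
def ha : E := amp (.seq (.nt .pa) (.nt .car))

/-- The head of the list `pb` is `1`. -/
def hb : E := amp (.seq (.nt .pb) (.nt .car))

/-- The rules. -/
def rules : NT → E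
  | .load => amp (.alt (.seq (.term .m) (.neg dot)) (.seq (oneOf [.b0, .b1, .n]) (.nt .load)))
  | .acc => amp (.alt
      (.seq (.term .s) (.alt (.seq (.nt .acc) (.neg (.seq ha hb)))
        (.seq (.neg (.nt .acc)) (.seq ha hb))))
      (.seq (oneOf [.b0, .b1, .m, .n, .w, .x]) (.nt .acc)))
  | .out => amp (.alt
      (.seq (.term .x) (.alt (.seq (.nt .out) (.neg (.nt .acc)))
        (.seq (.neg (.nt .out)) (.nt .acc))))
      (.seq (oneOf [.b0, .b1, .m, .n, .r, .s, .w]) (.nt .out)))
  | .ok => amp (.alt (.term .r) (.alt (.seq (.term .b1) (.seq (.nt .ok) ha))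
      (.alt (.seq (.term .b0) (.seq (.nt .ok) (.neg ha)))
        (.seq (oneOf [.m, .n, .s, .w, .x]) (.nt .ok)))))
  | .lab => .alt (amp (.seq (oneOf [.b0, .b1]) (.nt .load))) (.seq dot (.nt .lab))
  | .win => .alt (amp (.term .w)) (.alt
      (.seq (amp (.seq (.term .n) (.nt .load))) (.seq dot (.nt .lab)))
      (.seq (.neg (.seq (.term .n) (.nt .load))) (.seq dot (.nt .win))))
  | .pa => .alt (.seq (.term .r) (.nt .lab)) (.alt
      (.seq (oneOf [.b0, .b1, .s]) (.seq (.nt .pa) (.nt .cdr)))
      (.seq (oneOf [.m, .n, .w, .x]) (.nt .pa)))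
  | .pb => .alt (.seq (.term .r) (.nt .win)) (.alt
      (.seq (.term .s) (.seq (.nt .pb) (.nt .cdr)))
      (.seq (oneOf [.b0, .b1, .m, .n, .w, .x]) (.nt .pb)))
  | .car => amp (.alt (.term .b1) (.seq (.term .w) (.nt .acc)))
  | .cdr => .alt (.seq (oneOf [.b0, .b1]) (.nt .lab)) (.seq (.term .w) (.nt .win))
  | .all => .alt (.seq dot (.nt .all)) .eps
  | .start => .seq (.nt .out) (.seq (.nt .ok) (.nt .all))

/-- The grammar of `L₁`. -/
def G1 : PEG Sym := ⟨NT, inferInstance, rules, .start⟩

/-- The grammar of the language of all words. -/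
def G2 : PEG Sym := ⟨NT, inferInstance, rules, .all⟩

/-- The value as a function of expressions in `E`. -/
noncomputable def V (e : E) (v : List Sym) : Option (Option (List Sym)) := G1.value e v

section Vlemmas

@[simp] theorem V_eps (v : List Sym) : V .eps v = some (some v) := PEG.value_eps (G := G1) v
@[simp] theorem V_term_nil (a : Sym) : V (.term a) [] = some none :=
  PEG.value_term_nil (G := G1) a
@[simp] theorem V_term_cons (a b : Sym) (v : List Sym) :
    V (.term a) (b :: v) = if b = a then some (some v) else some none :=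
  PEG.value_term_cons (G := G1) a b v
@[simp] theorem V_seq (e₁ e₂ : E) (v : List Sym) :
    V (.seq e₁ e₂) v = seqR (V e₁ v) (V e₂) := PEG.value_seq (G := G1) e₁ e₂ v
@[simp] theorem V_alt (e₁ e₂ : E) (v : List Sym) :
    V (.alt e₁ e₂) v = altR (V e₁ v) (V e₂ v) := PEG.value_alt (G := G1) e₁ e₂ v
@[simp] theorem V_neg (e : E) (v : List Sym) :
    V (.neg e) v = negR (V e v) v := PEG.value_neg (G := G1) e v
theorem V_nt (X : NT) (v : List Sym) : V (.nt X) v = V (rules X) v := PEG.value_nt (G := G1) X v

end Vlemmas

/-- The result of a predicate. -/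
def pr (b : Bool) (v : List Sym) : Option (Option (List Sym)) := some (if b then some v else none)

@[simp] theorem pr_true (v : List Sym) : pr true v = some (some v) := rfl
@[simp] theorem pr_false (v : List Sym) : pr false v = some none := rfl

/-- The pointer `p` represents the list `l`. -/
def Rep : Option (List Sym) → List Bool → Prop
  | p, [] => p = none
  | p, c :: l => ∃ v, p = some v ∧ V (.nt .car) v = pr c v ∧
      ∃ r, V (.nt .cdr) v = some r ∧ Rep r l

/-- The nonterminal `X` points at `v` to the list `l`. -/
def Pt (X : NT) (v : List Sym) (l : List Bool) : Prop := ∃ p, V (.nt X) v = some p ∧ Rep p l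

/-- Everything is represented correctly. -/
structure Inv (v : List Sym) : Prop where
  fresh : (run v).fresh = true ↔ v = []
  load : V (.nt .load) v = pr (run v).loading v
  acc : V (.nt .acc) v = pr (run v).acc v
  out : V (.nt .out) v = pr (run v).out v
  ok : V (.nt .ok) v = pr (run v).ok v
  lab : Pt .lab v (run v).lab
  win : Pt .win v (run v).win
  pa : Pt .pa v (run v).pa
  pb : Pt .pb v (run v).pb

/-- The value of an and-predicate. -/
def ampR (r : Option (Option (List Sym))) (w : List Sym) : Option (Option (List Sym)) :=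
  match r with
  | none => none
  | some none => some none
  | some (some _) => some (some w)

@[simp] theorem ampR_none (w : List Sym) : ampR none w = none := rfl
@[simp] theorem ampR_fail (w : List Sym) : ampR (some none) w = some none := rfl
@[simp] theorem ampR_ok (v w : List Sym) : ampR (some (some v)) w = some (some w) := rfl

@[simp] theorem V_amp (e : E) (v : List Sym) : V (amp e) v = ampR (V e v) v := by
  unfold amp
  rw [V_neg, V_neg]
  rcases V e v with _ | _ | _ <;> rfl

theorem V_oneOf_nil (l : List Sym) : V (oneOf l) [] = some none := by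
  induction l with
  | nil => simp [oneOf]
  | cons a l ih => simp [oneOf, ih]

theorem V_oneOf_cons (l : List Sym) (a : Sym) (v : List Sym) :
    V (oneOf l) (a :: v) = if a ∈ l then some (some v) else some none := by
  induction l with
  | nil => simp [oneOf]
  | cons b l ih =>
    rw [oneOf, V_alt, V_term_cons, ih]
    by_cases h : a = b
    · simp [h]
    · by_cases h2 : a ∈ l
      · simp [h, h2]
      · simp [h, h2]

theorem V_dot_cons (a : Sym) (v : List Sym) : V dot (a :: v) = some (some v) := by
  rw [dot, V_oneOf_cons, if_pos]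
  cases a <;> decide

theorem V_dot_nil : V dot [] = some none := V_oneOf_nil _

theorem Pt.head {X : NT} {v : List Sym} {l : List Bool} (h : Pt X v l) :
    ampR (seqR (V (.nt X) v) (V (.nt .car))) v = pr (l.headD false) v := by
  obtain ⟨p, h1, h2⟩ := h
  rw [h1]
  rcases l with _ | ⟨c, l⟩
  · simp only [Rep] at h2
    subst h2
    rfl
  · obtain ⟨u, rfl, h3, -⟩ := h2
    rw [seqR_ok, h3, List.headD_cons]
    rcases c <;> rfl

theorem Pt.tail {X : NT} {v : List Sym} {l : List Bool} (h : Pt X v l) :
    ∃ p, seqR (V (.nt X) v) (V (.nt .cdr)) = some p ∧ Rep p l.tail := by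
  obtain ⟨p, h1, h2⟩ := h
  rcases l with _ | ⟨c, l⟩
  · simp only [Rep] at h2
    subst h2
    exact ⟨none, by rw [h1]; rfl, rfl⟩
  · obtain ⟨u, rfl, -, r, h3, h4⟩ := h2
    exact ⟨r, by rw [h1]; exact h3, h4⟩

theorem Pt.of {X : NT} {v : List Sym} {l : List Bool} {p : Option (List Sym)}
    (h : V (.nt X) v = some p) (h2 : Rep p l) : Pt X v l := ⟨p, h, h2⟩

theorem inv_nil : Inv [] where
  fresh := by simp [St.init]
  load := by rw [V_nt, rules]; simp [V_oneOf_nil, St.init]
  acc := by rw [V_nt, rules]; simp [V_oneOf_nil, St.init]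
  out := by rw [V_nt, rules]; simp [V_oneOf_nil, St.init]
  ok := by rw [V_nt, rules]; simp [V_oneOf_nil, St.init]
  lab := ⟨none, by rw [V_nt, rules]; simp [V_oneOf_nil, V_dot_nil], rfl⟩
  win := ⟨none, by rw [V_nt, rules]; simp [V_dot_nil], rfl⟩
  pa := ⟨none, by rw [V_nt, rules]; simp [V_oneOf_nil], rfl⟩
  pb := ⟨none, by rw [V_nt, rules]; simp [V_oneOf_nil], rfl⟩

theorem V_load_m (v : List Sym) : V (.nt .load) (.m :: v) = pr (v == []) (.m :: v) := by
  rw [V_nt, rules]
  rcases v with _ | ⟨a, v⟩
  · simp [V_oneOf_cons, V_dot_nil]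
  · simp [V_oneOf_cons, V_dot_cons]

theorem inv_load {a : Sym} {v : List Sym} (h : Inv v) :
    V (.nt .load) (a :: v) = pr (run (a :: v)).loading (a :: v) := by
  have h1 := h.load
  by_cases hm : a = .m
  · subst hm
    rw [V_load_m]
    congr 1
    rw [Bool.eq_iff_iff]
    simp [step, h.fresh]
  · rw [V_nt, rules]
    generalize hc1 : (run v).loading = c1 at h1
    cases a <;> cases c1 <;> simp_all [V_oneOf_cons, step]

theorem inv_acc {a : Sym} {v : List Sym} (h : Inv v) :
    V (.nt .acc) (a :: v) = pr (run (a :: v)).acc (a :: v) := by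
  have h1 := h.acc
  have h2 := h.pa.head
  have h3 := h.pb.head
  rw [V_nt, rules]
  generalize hc1 : (run v).acc = c1 at h1
  generalize hc2 : (run v).pa.headD false = c2 at h2
  generalize hc3 : (run v).pb.headD false = c3 at h3
  cases a
  case s =>
    simp only [run_cons, step, hc1, hc2, hc3]
    cases c1 <;> cases c2 <;> cases c3 <;> simp [V_oneOf_cons, ha, hb, h1, h2, h3]
  all_goals
    simp only [run_cons, step, hc1]
    cases c1 <;> simp [V_oneOf_cons, h1]

theorem inv_out {a : Sym} {v : List Sym} (h : Inv v) :
    V (.nt .out) (a :: v) = pr (run (a :: v)).out (a :: v) := by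
  have h1 := h.acc
  have h2 := h.out
  rw [V_nt, rules]
  generalize hc1 : (run v).acc = c1 at h1
  generalize hc2 : (run v).out = c2 at h2
  cases a <;>
    (simp only [run_cons, step, hc1, hc2]
     cases c1 <;> cases c2 <;> simp [V_oneOf_cons, h1, h2])

theorem inv_ok {a : Sym} {v : List Sym} (h : Inv v) :
    V (.nt .ok) (a :: v) = pr (run (a :: v)).ok (a :: v) := by
  have h1 := h.ok
  have h2 := h.pa.head
  rw [V_nt, rules]
  generalize hc1 : (run v).ok = c1 at h1
  generalize hc2 : (run v).pa.headD false = c2 at h2
  cases a <;>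
    (simp only [run_cons, step, hc1, hc2]
     cases c1 <;> cases c2 <;> simp [V_oneOf_cons, h1, h2, ha])

theorem rep_bit {a : Sym} {c : Bool} (hac : a = if c then .b1 else .b0) {v : List Sym}
    {l : List Bool} (h : Pt .lab v l) : Rep (some (a :: v)) (c :: l) := by
  obtain ⟨p, h1, h2⟩ := h
  refine ⟨_, rfl, ?_, p, ?_, h2⟩
  · rw [V_nt, rules]
    rcases c <;> subst hac <;> simp
  · rw [V_nt, rules]
    rcases c <;> subst hac <;> rcases p with _ | p <;> simp [V_oneOf_cons, h1]

theorem rep_w {c : Bool} {v : List Sym} {l : List Bool} (h : Pt .win v l)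
    (h' : V (.nt .acc) v = pr c v) : Rep (some (.w :: v)) (c :: l) := by
  obtain ⟨p, h1, h2⟩ := h
  refine ⟨_, rfl, ?_, p, ?_, h2⟩
  · rw [V_nt, rules]
    rcases c <;> simp [h']
  · rw [V_nt, rules]
    rcases p with _ | p <;> simp [V_oneOf_cons, h1]

theorem inv_lab {a : Sym} {v : List Sym} (h : Inv v) : Pt .lab (a :: v) (run (a :: v)).lab := by
  have h1 := h.load
  obtain ⟨p, h2, h3⟩ := h.lab
  generalize hc1 : (run v).loading = c1 at h1
  have key : V (.nt .lab) (a :: v) = if (a = .b0 ∨ a = .b1) ∧ c1 = true then
      some (some (a :: v)) else some p := by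
    rw [V_nt, rules]
    cases a <;> cases c1 <;> simp [V_dot_cons, V_oneOf_cons, h1, h2]
  cases c1
  · refine Pt.of (by rw [key, if_neg (by simp)]) ?_
    cases a <;> simpa [step, hc1] using h3
  · cases a
    case b0 =>
      refine Pt.of (by rw [key, if_pos (by simp)]) ?_
      simp only [run_cons, step, hc1, if_true]
      exact rep_bit (c := false) rfl h.lab
    case b1 =>
      refine Pt.of (by rw [key, if_pos (by simp)]) ?_
      simp only [run_cons, step, hc1, if_true]
      exact rep_bit (c := true) rfl h.lab
    all_goals exact Pt.of (by rw [key, if_neg (by simp)]) h3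

theorem inv_win {a : Sym} {v : List Sym} (h : Inv v) : Pt .win (a :: v) (run (a :: v)).win := by
  have h1 := h.load
  obtain ⟨p, h2, h3⟩ := h.lab
  obtain ⟨p', h4, h5⟩ := h.win
  generalize hc1 : (run v).loading = c1 at h1
  have key : V (.nt .win) (a :: v) = if a = .w then some (some (a :: v)) else
      if a = .n ∧ c1 = true then some p else some p' := by
    rw [V_nt, rules]
    cases a <;> cases c1 <;> rcases p with _ | p <;> simp [V_dot_cons, h1, h2, h4]
  cases a
  case w => exact Pt.of (by rw [key, if_pos rfl]) (rep_w h.win h.acc)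
  case n =>
    cases c1
    · refine Pt.of (by rw [key, if_neg (by simp), if_neg (by simp)]) ?_
      simpa [step, hc1] using h5
    · refine Pt.of (by rw [key, if_neg (by simp), if_pos (by simp)]) ?_
      simpa [step, hc1] using h3
  all_goals exact Pt.of (by rw [key, if_neg (by simp), if_neg (by simp)]) h5

theorem inv_pa {a : Sym} {v : List Sym} (h : Inv v) : Pt .pa (a :: v) (run (a :: v)).pa := by
  obtain ⟨p, h2, h3⟩ := h.lab
  obtain ⟨p', h4, h5⟩ := h.pa
  obtain ⟨p'', h6, h7⟩ := h.pa.tail
  have key : V (.nt .pa) (a :: v) = if a = .r then some p else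
      if a = .b0 ∨ a = .b1 ∨ a = .s then some p'' else some p' := by
    rw [V_nt, rules]
    cases a <;> rcases p with _ | p <;> rcases p'' with _ | p'' <;>
      simp [V_oneOf_cons, h2, h6] <;> simp [h4]
  cases a
  case r => exact Pt.of (by rw [key, if_pos rfl]) h3
  case b0 => exact Pt.of (by rw [key, if_neg (by simp), if_pos (by simp)]) h7
  case b1 => exact Pt.of (by rw [key, if_neg (by simp), if_pos (by simp)]) h7
  case s => exact Pt.of (by rw [key, if_neg (by simp), if_pos (by simp)]) h7
  all_goals exact Pt.of (by rw [key, if_neg (by simp), if_neg (by simp)]) h5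

theorem inv_pb {a : Sym} {v : List Sym} (h : Inv v) : Pt .pb (a :: v) (run (a :: v)).pb := by
  obtain ⟨p, h2, h3⟩ := h.win
  obtain ⟨p', h4, h5⟩ := h.pb
  obtain ⟨p'', h6, h7⟩ := h.pb.tail
  have key : V (.nt .pb) (a :: v) = if a = .r then some p else
      if a = .s then some p'' else some p' := by
    rw [V_nt, rules]
    cases a <;> rcases p with _ | p <;> rcases p'' with _ | p'' <;>
      simp [V_oneOf_cons, h2, h6] <;> simp [h4]
  cases a
  case r => exact Pt.of (by rw [key, if_pos rfl]) h3
  case s => exact Pt.of (by rw [key, if_neg (by simp), if_pos (by simp)]) h7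
  all_goals exact Pt.of (by rw [key, if_neg (by simp), if_neg (by simp)]) h5

theorem inv (v : List Sym) : Inv v := by
  induction v with
  | nil => exact inv_nil
  | cons a v h =>
    refine ⟨?_, inv_load h, inv_acc h, inv_out h, inv_ok h, inv_lab h, inv_win h, inv_pa h,
      inv_pb h⟩
    cases a <;> simp [step]

theorem V_all (v : List Sym) : V (.nt .all) v = some (some []) := by
  induction v with
  | nil => rw [V_nt, rules]; simp [V_dot_nil]
  | cons a v ih => rw [V_nt, rules]; simp [V_dot_cons, ih]

theorem G1_language : G1.language = L1 := by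
  ext v
  rw [PEG.mem_language]
  change V (.nt .start) v = _ ↔ _
  have h := inv v
  have h1 := h.out
  have h2 := h.ok
  rw [V_nt, rules]
  change _ ↔ (run v).out = true ∧ (run v).ok = true
  generalize (run v).out = c1 at h1 ⊢
  generalize (run v).ok = c2 at h2 ⊢
  cases c1 <;> cases c2 <;> simp [h1, h2, V_all]

/-- Two grammars with the same rules. -/
theorem res_G2 {e : PExp G1.N Sym} {w : List Sym} {r : Option (List Sym)} (h : G1.Res e w r) :
    G2.Res e w r := by
  induction h with
  | eps w => exact .eps w
  | term a s => exact .term a s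
  | termFail a w h => exact .termFail a w h
  | seqOk e₁ e₂ w v r _ _ h1 h2 => exact PEG.Res.seqOk (G := G2) e₁ e₂ w v r h1 h2
  | seqFail e₁ e₂ w _ h => exact PEG.Res.seqFail (G := G2) e₁ e₂ w h
  | nt X w r _ h => exact PEG.Res.nt (G := G2) X w r h
  | altOk e₁ e₂ w v _ h => exact PEG.Res.altOk (G := G2) e₁ e₂ w v h
  | altFail e₁ e₂ w r _ _ h1 h2 => exact PEG.Res.altFail (G := G2) e₁ e₂ w r h1 h2
  | negOk e w _ h => exact PEG.Res.negOk (G := G2) e w h
  | negFail e w v _ h => exact PEG.Res.negFail (G := G2) e w v h

theorem G2_language : G2.language = ⊤ := by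
  ext v
  exact ⟨fun _ => trivial, fun _ => res_G2 (PEG.value_eq_some_iff.1 (V_all v))⟩

theorem isPEL_L1 : IsPEL L1 := ⟨G1, G1_language⟩

theorem isPEL_top : IsPEL (⊤ : Language Sym) := ⟨G2, G2_language⟩

end Pool.Agent.W2helper59.PE
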