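import Pool.Agent.W2helper59.PE.Basic

/-!
# Locality: few positions of the old part of a word are visited
-/

set_option autoImplicit false

namespace Pool.Agent.W2helper59.PE

variable {A : Type}

/-- The suffix of length `k`. -/
def suf (w : List A) (k : ℕ) : List A := w.drop (w.length - k)

theorem length_suf {w : List A} {k : ℕ} (h : k ≤ w.length) : (suf w k).length = k := by
  rw [suf, List.length_drop]; omega

theorem suf_self (w : List A) : suf w w.length = w := by simp [suf]

theorem suf_append {u v : List A} {k : ℕ} (h : k ≤ v.length) : suf (u ++ v) k = suf v k := by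
  rw [suf, suf, List.length_append,
    show u.length + v.length - k = u.length + (v.length - k) by omega, List.drop_append]
  simp

theorem suf_append' {u v : List A} {k : ℕ} (h : v.length ≤ k) :
    suf (u ++ v) k = suf u (k - v.length) ++ v := by
  rw [suf, suf, List.length_append,
    show u.length + v.length - k = u.length - (k - v.length) by omega,
    List.drop_append_of_le_length (by omega)]

theorem suf_suf {w : List A} {j k : ℕ} (h : j ≤ k) (hk : k ≤ w.length) :
    suf (suf w k) j = suf w j := by
  rw [suf, length_suf hk, suf, List.drop_drop, suf]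
  congr 1
  omega

theorem eq_suf_of_suffix {v w : List A} (h : v <:+ w) : v = suf w v.length := by
  obtain ⟨u, rfl⟩ := h
  rw [suf_append le_rfl, suf_self]

/-- The number of leaves. -/
def PExp.size {N : Type} : PExp N A → ℕ
  | .eps => 0
  | .term _ => 1
  | .nt _ => 1
  | .seq e₁ e₂ => e₁.size + e₂.size
  | .alt e₁ e₂ => e₁.size + e₂.size
  | .neg e => e.size

variable (G : PEG A)

/-- The value with the words replaced by their lengths. -/
noncomputable def lv (e : PExp G.N A) (w : List A) : Option (Option ℕ) :=
  (G.value e w).map (Option.map List.length)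

variable {G}

theorem lv_of_res {e : PExp G.N A} {w : List A} {r : Option (List A)} (h : G.Res e w r) :
    lv G e w = some (r.map List.length) := by
  rw [lv, h.value]; rfl

theorem res_of_lv {e : PExp G.N A} {w : List A} {r : Option ℕ} (h : lv G e w = some r) :
    ∃ r', G.Res e w r' ∧ r'.map List.length = r := by
  unfold lv at h
  rcases h1 : G.value e w with _ | r'
  · rw [h1] at h; cases h
  · rw [h1] at h
    exact ⟨r', PEG.value_eq_some_iff.1 h1, by simpa using h⟩

/-- A condition under which the evaluations in two words are the same. -/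
structure Sys (G : PEG A) (W₁ W₂ : List A) (Good : PExp G.N A → ℕ → Prop) : Prop where
  term : ∀ a k, k ≤ W₁.length → Good (.term a) k → (suf W₁ k).head? = (suf W₂ k).head?
  nt : ∀ X k, k ≤ W₁.length → Good (.nt X) k →
    Good (G.rule X) k ∨ lv G (.nt X) (suf W₁ k) = lv G (.nt X) (suf W₂ k)
  seq₁ : ∀ e₁ e₂ k, Good (.seq e₁ e₂) k → Good e₁ k
  seq₂ : ∀ e₁ e₂ k v₁ v₂, Good (.seq e₁ e₂) k → G.Res e₁ (suf W₁ k) (some v₁) →
    G.Res e₁ (suf W₂ k) (some v₂) → v₁.length = v₂.length → Good e₂ v₁.length
  alt₁ : ∀ e₁ e₂ k, Good (.alt e₁ e₂) k → Good e₁ k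
  alt₂ : ∀ e₁ e₂ k, Good (.alt e₁ e₂) k → Good e₂ k
  neg : ∀ e k, Good (.neg e) k → Good e k

theorem Sys.main {W₁ W₂ : List A} {Good : PExp G.N A → ℕ → Prop} (hS : Sys G W₁ W₂ Good)
    (hl : W₁.length = W₂.length) {e : PExp G.N A} {w : List A} {r : Option (List A)}
    (h : G.Res e w r) : ∀ k, k ≤ W₁.length → w = suf W₁ k → Good e k →
      ∃ r', G.Res e (suf W₂ k) r' ∧ r'.map List.length = r.map List.length := by
  induction h with
  | eps w =>
    rintro k hk rfl hg
    refine ⟨_, .eps _, ?_⟩
    simp only [Option.map_some]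
    rw [length_suf hk, length_suf (by omega)]
  | term a s =>
    intro k hk hw hg
    have h1 := hS.term a k hk hg
    rw [← hw, List.head?_cons] at h1
    rcases h2 : suf W₂ k with _ | ⟨b, s'⟩
    · rw [h2] at h1; simp at h1
    · rw [h2, List.head?_cons, Option.some.injEq] at h1
      subst h1
      refine ⟨_, .term _ _, ?_⟩
      have h3 := congrArg List.length hw
      have h4 := congrArg List.length h2
      rw [length_suf hk, List.length_cons] at h3
      rw [length_suf (by omega), List.length_cons] at h4
      simp only [Option.map_some, Option.some.injEq]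
      omega
  | termFail a w hw =>
    rintro k hk rfl hg
    have h1 := hS.term a k hk hg
    exact ⟨none, .termFail _ _ (by rw [← h1]; exact hw), rfl⟩
  | seqOk e₁ e₂ w v r h1 h2 ih₁ ih₂ =>
    rintro k hk rfl hg
    obtain ⟨r₁, g1, g2⟩ := ih₁ k hk rfl (hS.seq₁ _ _ _ hg)
    rcases r₁ with _ | v'
    · simp at g2
    simp only [Option.map_some, Option.some.injEq] at g2
    have hv := eq_suf_of_suffix h1.suffix
    have hv' := eq_suf_of_suffix g1.suffix
    have hle : v.length ≤ k := by
      have := h1.suffix.length_le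
      rwa [length_suf hk] at this
    rw [suf_suf hle hk] at hv
    rw [g2, suf_suf hle (by omega)] at hv'
    obtain ⟨r', g3, g4⟩ := ih₂ v.length (by omega) hv (hS.seq₂ _ _ _ _ _ hg h1 g1 g2.symm)
    rw [← hv'] at g3
    exact ⟨r', .seqOk _ _ _ _ _ g1 g3, g4⟩
  | seqFail e₁ e₂ w h1 ih₁ =>
    rintro k hk rfl hg
    obtain ⟨r₁, g1, g2⟩ := ih₁ k hk rfl (hS.seq₁ _ _ _ hg)
    rcases r₁ with _ | v'
    · exact ⟨none, .seqFail _ _ _ g1, rfl⟩
    · simp at g2
  | nt X w r h1 ih =>
    rintro k hk rfl hg
    rcases hS.nt X k hk hg with h2 | h2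
    · obtain ⟨r', g1, g2⟩ := ih k hk rfl h2
      exact ⟨r', .nt _ _ _ g1, g2⟩
    · rw [lv_of_res (.nt _ _ _ h1)] at h2
      exact res_of_lv h2.symm
  | altOk e₁ e₂ w v h1 ih₁ =>
    rintro k hk rfl hg
    obtain ⟨r₁, g1, g2⟩ := ih₁ k hk rfl (hS.alt₁ _ _ _ hg)
    rcases r₁ with _ | v'
    · simp at g2
    exact ⟨_, .altOk _ _ _ _ g1, g2⟩
  | altFail e₁ e₂ w r h1 h2 ih₁ ih₂ =>
    rintro k hk rfl hg
    obtain ⟨r₁, g1, g2⟩ := ih₁ k hk rfl (hS.alt₁ _ _ _ hg)
    obtain ⟨r₂, g3, g4⟩ := ih₂ k hk rfl (hS.alt₂ _ _ _ hg)
    rcases r₁ with _ | v'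
    · exact ⟨_, .altFail _ _ _ _ g1 g3, g4⟩
    · simp at g2
  | negOk e w h1 ih =>
    rintro k hk rfl hg
    obtain ⟨r₁, g1, g2⟩ := ih k hk rfl (hS.neg _ _ hg)
    rcases r₁ with _ | v'
    · refine ⟨_, .negOk _ _ g1, ?_⟩
      simp only [Option.map_some]
      rw [length_suf hk, length_suf (by omega)]
    · simp at g2
  | negFail e w v h1 ih =>
    rintro k hk rfl hg
    obtain ⟨r₁, g1, g2⟩ := ih k hk rfl (hS.neg _ _ hg)
    rcases r₁ with _ | v'
    · simp at g2
    · exact ⟨_, .negFail _ _ _ g1, rfl⟩

/-- The positions visited by the evaluation of `e` at the position `k` of `w`, if the values of the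
nonterminals are looked up. -/
noncomputable def vis (G : PEG A) (w : List A) : PExp G.N A → ℕ → Finset ℕ
  | .eps, _ => ∅
  | .term _, k => {k}
  | .nt _, k => {k}
  | .seq e₁ e₂, k => vis G w e₁ k ∪
      (match G.value e₁ (suf w k) with
        | some (some v) => vis G w e₂ v.length
        | _ => ∅)
  | .alt e₁ e₂, k => vis G w e₁ k ∪ vis G w e₂ k
  | .neg e, k => vis G w e k

theorem card_vis (w : List A) (e : PExp G.N A) (k : ℕ) : (vis G w e k).card ≤ e.size := by
  induction e generalizing k with
  | eps => simp [vis, PExp.size]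
  | term => simp [vis, PExp.size]
  | nt => simp [vis, PExp.size]
  | seq e₁ e₂ ih₁ ih₂ =>
    rw [vis, PExp.size]
    refine (Finset.card_union_le _ _).trans (Nat.add_le_add (ih₁ k) ?_)
    rcases G.value e₁ (suf w k) with _ | _ | v
    · simp
    · simp
    · exact ih₂ _
  | alt e₁ e₂ ih₁ ih₂ =>
    rw [vis, PExp.size]
    exact (Finset.card_union_le _ _).trans (Nat.add_le_add (ih₁ k) (ih₂ k))
  | neg e ih => exact ih k

/-- The cell of a word: its first letter and the values of all nonterminals. -/
noncomputable def cell (G : PEG A) (v : List A) : Option A × (G.N → Option (Option ℕ)) :=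
  (v.head?, fun X => lv G (.nt X) v)

open Classical in
/-- The positions of `v` that are visited by the evaluation of all nonterminals at the positions
of `q ++ v` which are not positions of `v`. -/
noncomputable def look (G : PEG A) [Fintype G.N] (q v : List A) : Finset ℕ :=
  (Finset.Ioc v.length (q ++ v).length).biUnion fun k =>
    Finset.univ.biUnion fun X => (vis G (q ++ v) (G.rule X) k).filter (· ≤ v.length)

/-- The size of a grammar. -/
def PEG.size (G : PEG A) [Fintype G.N] : ℕ := ∑ X, (G.rule X).size

theorem card_look [Fintype G.N] (q v : List A) : (look G q v).card ≤ q.length * G.size := by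
  unfold look
  refine Finset.card_biUnion_le.trans ?_
  have : q.length = (Finset.Ioc v.length (q ++ v).length).card := by simp
  rw [this, ← smul_eq_mul, ← Finset.sum_const]
  refine Finset.sum_le_sum fun k _ => ?_
  refine Finset.card_biUnion_le.trans ?_
  exact Finset.sum_le_sum fun X _ => (Finset.card_filter_le _ _).trans (card_vis _ _ _)

theorem mem_look_le [Fintype G.N] {q v : List A} {k : ℕ} (h : k ∈ look G q v) :
    k ≤ v.length := by
  simp only [look, Finset.mem_biUnion, Finset.mem_filter] at h
  obtain ⟨_, _, _, _, _, h⟩ := h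
  exact h

/-- If the cells agree at the visited positions, the evaluations are the same. -/
theorem agree [Fintype G.N] {q v v' : List A} (hq : q ≠ []) (hl : v.length = v'.length)
    (h : ∀ k ∈ look G q v, cell G (suf v k) = cell G (suf v' k)) :
    q ++ v ∈ G.language ↔ q ++ v' ∈ G.language := by
  classical
  set Good : PExp G.N A → ℕ → Prop := fun e k =>
    ∀ j ∈ vis G (q ++ v) e k, j ≤ v.length → j ∈ look G q v with hGood
  have hlen : (q ++ v).length = (q ++ v').length := by simp [hl]
  have hterm : ∀ (a : A) (k : ℕ), k ≤ (q ++ v).length → Good (.term a) k →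
      (suf (q ++ v) k).head? = (suf (q ++ v') k).head? := by
    intro a k hk hg
    rcases le_or_gt k v.length with h1 | h1
    · have h2 := h k (hg k (by simp [vis]) h1)
      rw [suf_append h1, suf_append (by omega)]
      exact congrArg Prod.fst h2
    · rw [suf_append' h1.le, suf_append' (by omega), hl]
      have h3 : suf q (k - v'.length) ≠ [] := by
        intro h0
        have := congrArg List.length h0
        rw [length_suf (by rw [List.length_append] at hk; omega)] at this
        simp only [List.length_nil] at this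
        omega
      obtain ⟨b, l, hbl⟩ := List.exists_cons_of_ne_nil h3
      rw [hbl]
      rfl
  have hnt : ∀ (X : G.N) (k : ℕ), k ≤ (q ++ v).length → Good (.nt X) k →
      Good (G.rule X) k ∨ lv G (.nt X) (suf (q ++ v) k) = lv G (.nt X) (suf (q ++ v') k) := by
    intro X k hk hg
    rcases le_or_gt k v.length with h1 | h1
    · right
      have h2 := h k (hg k (by simp [vis]) h1)
      rw [suf_append h1, suf_append (by omega)]
      exact congrFun (congrArg Prod.snd h2) X
    · left
      intro j hj hjv
      simp only [look, Finset.mem_biUnion, Finset.mem_filter, Finset.mem_Ioc]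
      exact ⟨k, ⟨h1, hk⟩, X, Finset.mem_univ _, hj, hjv⟩
  have hseq : ∀ e₁ e₂ k v₁, Good (.seq e₁ e₂) k → G.Res e₁ (suf (q ++ v) k) (some v₁) →
      Good e₂ v₁.length := by
    intro e₁ e₂ k v₁ hg h1 j hj
    refine hg j ?_
    rw [vis, Finset.mem_union]
    right
    rw [h1.value]
    exact hj
  have S1 : Sys G (q ++ v) (q ++ v') Good :=
    { term := hterm
      nt := hnt
      seq₁ := fun e₁ e₂ k hg j hj => hg j (by rw [vis]; exact Finset.mem_union_left _ hj)
      seq₂ := fun e₁ e₂ k v₁ v₂ hg h1 _ _ => hseq e₁ e₂ k v₁ hg h1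
      alt₁ := fun e₁ e₂ k hg j hj => hg j (by rw [vis]; exact Finset.mem_union_left _ hj)
      alt₂ := fun e₁ e₂ k hg j hj => hg j (by rw [vis]; exact Finset.mem_union_right _ hj)
      neg := fun e k hg j hj => hg j (by rw [vis]; exact hj) }
  have S2 : Sys G (q ++ v') (q ++ v) Good :=
    { term := fun a k hk hg => (hterm a k (by omega) hg).symm
      nt := fun X k hk hg => (hnt X k (by omega) hg).imp id Eq.symm
      seq₁ := S1.seq₁
      seq₂ := fun e₁ e₂ k v₁ v₂ hg _ h2 h3 => by rw [h3]; exact hseq e₁ e₂ k v₂ hg h2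
      alt₁ := S1.alt₁
      alt₂ := S1.alt₂
      neg := S1.neg }
  have hstart : Good (.nt G.start) (q ++ v).length := by
    intro j hj hjv
    simp only [vis, Finset.mem_singleton] at hj
    subst hj
    exfalso
    rw [List.length_append] at hjv
    have := List.length_pos_iff.2 hq
    omega
  constructor
  · intro h1
    obtain ⟨r', g1, g2⟩ := S1.main hlen h1 _ le_rfl (suf_self _).symm hstart
    rw [hlen, suf_self] at g1
    rcases r' with _ | w
    · simp at g2
    · simp only [Option.map_some, List.length_nil, Option.some.injEq,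
        List.length_eq_zero_iff] at g2
      subst g2
      exact g1
  · intro h1
    obtain ⟨r', g1, g2⟩ := S2.main hlen.symm h1 _ le_rfl (suf_self _).symm (by
      rw [← hlen]; exact hstart)
    rw [← hlen, suf_self] at g1
    rcases r' with _ | w
    · simp at g2
    · simp only [Option.map_some, List.length_nil, Option.some.injEq,
        List.length_eq_zero_iff] at g2
      subst g2
      exact g1

end Pool.Agent.W2helper59.PE
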