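import Pool.Agent.W2helper59.PE.Lang

/-!
# Special words and their membership in `L₁ Σ*`
-/

set_option autoImplicit false

namespace Pool.Agent.W2helper59.PE

/-- The symbol of a bit. -/
def bit (c : Bool) : Sym := if c then .b1 else .b0

/-- The word of a list of bits. -/
def bits (l : List Bool) : List Sym := l.map bit

/-- The block of a label. -/
def block (q : List Bool × List Bool) : List Sym := bits q.1 ++ .n :: (bits q.2 ++ [.m])

/-- The item of a bit. -/
def item (m : ℕ) (b : Bool) : List Sym :=
  (if b then .x else .n) :: .w :: (List.replicate m .s ++ [.r])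

/-- The items of a list of bits. -/
def items (m : ℕ) (bs : List Bool) : List Sym := bs.flatMap (item m)

/-- The query of a label. -/
def query (q : List Bool × List Bool) : List Sym := bits (q.1 ++ q.2).reverse

/-- The inner product of the first `k` elements. -/
def ipn : ℕ → List Bool → List Bool → Bool
  | 0, _, _ => false
  | k + 1, l, l' => xor (l.headD false && l'.headD false) (ipn k l.tail l'.tail)

/-- The windows. -/
def wins (m : ℕ) (lab w : List Bool) : ℕ → List Bool
  | 0 => w
  | k + 1 => ipn m lab (wins m lab w k) :: wins m lab w k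

/-- The output bit. -/
def outF (m : ℕ) (lab w : List Bool) : List Bool → Bool
  | [] => false
  | b :: bs => xor (outF m lab w bs) (b && ipn m lab (wins m lab w bs.length))

theorem runFrom_s (k : ℕ) (t : St) : ∃ t', runFrom (List.replicate k .s) t = t' ∧
    t'.lab = t.lab ∧ t'.win = t.win ∧ t'.out = t.out ∧
    t'.acc = xor t.acc (ipn k t.pa t.pb) ∧ (t.fresh = false → t'.fresh = false) := by
  refine ⟨_, rfl, ?_⟩
  induction k generalizing t with
  | zero => simp [ipn]
  | succ k ih =>
    rw [List.replicate_succ', runFrom_append]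
    obtain ⟨h1, h2, h3, h4, h5⟩ := ih (runFrom [.s] t)
    refine ⟨h1, h2, h3, ?_, fun _ => h5 rfl⟩
    rw [h4]
    simp [step, ipn]

theorem runFrom_item (m : ℕ) (b : Bool) (t : St) :
    (runFrom (item m b) t).lab = t.lab ∧
    (runFrom (item m b) t).win = ipn m t.lab t.win :: t.win ∧
    (runFrom (item m b) t).out = xor t.out (b && ipn m t.lab t.win) ∧
    (runFrom (item m b) t).fresh = false := by
  unfold item
  rw [runFrom_cons, runFrom_cons, runFrom_append]
  obtain ⟨t', h0, h1, h2, h3, h4, h5⟩ := runFrom_s m (runFrom [.r] t)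
  rw [h0]
  have e1 : t'.lab = t.lab := h1
  have e2 : t'.win = t.win := h2
  have e3 : t'.out = t.out := h3
  have e4 : t'.acc = ipn m t.lab t.win := by rw [h4]; simp [step]
  cases b <;> simp [step, e1, e2, e3, e4]

theorem runFrom_items (m : ℕ) (bs : List Bool) (t : St) (ht : t.out = false)
    (hf : t.fresh = false) :
    (runFrom (items m bs) t).lab = t.lab ∧
    (runFrom (items m bs) t).win = wins m t.lab t.win bs.length ∧
    (runFrom (items m bs) t).out = outF m t.lab t.win bs ∧
    (runFrom (items m bs) t).fresh = false := by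
  induction bs with
  | nil => exact ⟨rfl, rfl, ht, hf⟩
  | cons b bs ih =>
    obtain ⟨h1, h2, h3, h4⟩ := ih
    have e : items m (b :: bs) = item m b ++ items m bs := by simp [items]
    rw [e, runFrom_append]
    obtain ⟨g1, g2, g3, g4⟩ := runFrom_item m b (runFrom (items m bs) t)
    rw [h1, h2] at g2 g3
    rw [h1] at g1
    rw [h3] at g3
    exact ⟨g1, g2, g3, g4⟩

theorem step_bit (c : Bool) (t : St) : step (bit c) t =
    { t with fresh := false, lab := if t.loading then c :: t.lab else t.lab,
             ok := t.ok && (t.pa.headD false == c), pa := t.pa.tail } := by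
  cases c <;> simp [bit, step]

theorem runFrom_load (l : List Bool) (t : St) (h : t.loading = true) :
    (runFrom (bits l) t).loading = true ∧ (runFrom (bits l) t).lab = l ++ t.lab ∧
    (runFrom (bits l) t).win = t.win ∧ (runFrom (bits l) t).out = t.out ∧
    (t.fresh = false → (runFrom (bits l) t).fresh = false) := by
  induction l with
  | nil => simp [bits, h]
  | cons c l ih =>
    obtain ⟨h1, h2, h3, h4, h5⟩ := ih
    rw [bits, List.map_cons, runFrom_cons, step_bit]
    refine ⟨h1, ?_, h3, h4, fun _ => rfl⟩
    change (if (runFrom (bits l) t).loading = true then c :: (runFrom (bits l) t).lab else _) = _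
    rw [h1, if_pos rfl, h2]
    rfl

theorem runFrom_skip (l : List Bool) (t : St) (h : t.loading = false) :
    (runFrom (bits l) t).loading = false ∧ (runFrom (bits l) t).lab = t.lab ∧
    (runFrom (bits l) t).win = t.win ∧ (runFrom (bits l) t).out = t.out ∧
    (t.fresh = false → (runFrom (bits l) t).fresh = false) := by
  induction l with
  | nil => simp [bits, h]
  | cons c l ih =>
    obtain ⟨h1, h2, h3, h4, h5⟩ := ih
    rw [bits, List.map_cons, runFrom_cons, step_bit]
    refine ⟨h1, ?_, h3, h4, fun _ => rfl⟩
    change (if (runFrom (bits l) t).loading = true then _ else (runFrom (bits l) t).lab) = _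
    rw [h1, if_neg (by simp), h2]

theorem run_block (q : List Bool × List Bool) :
    (run (block q)).lab = q.1 ++ q.2 ∧ (run (block q)).win = q.2 ∧
    (run (block q)).out = false ∧ (run (block q)).fresh = false := by
  unfold block
  rw [run_append, run_cons, run_append]
  obtain ⟨h1, h2, h3, h4, h5⟩ := runFrom_load q.2 (run [.m]) rfl
  have h5 := h5 rfl
  generalize runFrom (bits q.2) (run [.m]) = t at *
  have hw : (step .n t).win = q.2 := by simp [step, h1, h2, St.init]
  have hl : (step .n t).lab = q.2 := by simp [step, h2, St.init]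
  have ho : (step .n t).out = false := h4
  obtain ⟨g1, g2, g3, g4, g5⟩ := runFrom_load q.1 (step .n t) h1
  exact ⟨by rw [g2, hl], by rw [g3, hw], by rw [g4, ho], g5 rfl⟩

theorem runFrom_block (q : List Bool × List Bool) (t : St) (h : t.fresh = false) :
    (runFrom (block q) t).lab = t.lab ∧ (runFrom (block q) t).win = t.win ∧
    (runFrom (block q) t).out = t.out ∧ (runFrom (block q) t).fresh = false := by
  unfold block
  rw [runFrom_append, runFrom_cons, runFrom_append]
  have h0 : (runFrom [.m] t).loading = false := h
  obtain ⟨h1, h2, h3, h4, h5⟩ := runFrom_skip q.2 (runFrom [.m] t) h0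
  have h5 := h5 rfl
  generalize runFrom (bits q.2) (runFrom [.m] t) = t' at *
  have hw : (step .n t').win = t.win := by simp only [step, h1]; exact h3
  obtain ⟨g1, g2, g3, g4, g5⟩ := runFrom_skip q.1 (step .n t') h1
  exact ⟨by rw [g2]; exact h2, by rw [g3, hw], by rw [g4]; exact h4, g5 rfl⟩

theorem runFrom_blocks (l : List (List Bool × List Bool)) (t : St) (h : t.fresh = false) :
    (runFrom (l.flatMap block) t).lab = t.lab ∧ (runFrom (l.flatMap block) t).win = t.win ∧
    (runFrom (l.flatMap block) t).out = t.out ∧ (runFrom (l.flatMap block) t).fresh = false := by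
  induction l with
  | nil => exact ⟨rfl, rfl, rfl, h⟩
  | cons q l ih =>
    obtain ⟨h1, h2, h3, h4⟩ := ih
    rw [List.flatMap_cons, runFrom_append]
    obtain ⟨g1, g2, g3, g4⟩ := runFrom_block q _ h4
    exact ⟨g1.trans h1, g2.trans h2, g3.trans h3, g4⟩

theorem runFrom_cmp (l : List Bool) (t : St) (h : l.length = t.pa.length) :
    (runFrom (bits l.reverse) t).ok = (t.ok && decide (l = t.pa)) ∧
    (runFrom (bits l.reverse) t).out = t.out := by
  induction l generalizing t with
  | nil =>
    have : t.pa = [] := List.length_eq_zero_iff.1 h.symm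
    simp [bits, this]
  | cons c l ih =>
    obtain ⟨d, pa, hpa⟩ : ∃ d pa, t.pa = d :: pa := by
      rcases hp : t.pa with _ | ⟨d, pa⟩
      · rw [hp] at h; simp at h
      · exact ⟨d, pa, rfl⟩
    have e : bits (c :: l).reverse = bits l.reverse ++ [bit c] := by simp [bits]
    rw [e, runFrom_append, runFrom_cons, runFrom_nil]
    have k1 : (step (bit c) t).pa = pa := by rw [step_bit]; simp [hpa]
    have k2 : (step (bit c) t).ok = (t.ok && (d == c)) := by rw [step_bit]; simp [hpa]
    have k3 : (step (bit c) t).out = t.out := by rw [step_bit]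
    obtain ⟨h1, h2⟩ := ih (step (bit c) t) (by
      rw [k1]
      rw [hpa] at h
      simpa using h)
    refine ⟨?_, h2.trans k3⟩
    rw [h1, k1, k2, hpa]
    simp only [List.cons.injEq]
    rw [Bool.eq_iff_iff]
    simp only [Bool.and_eq_true, beq_iff_eq, decide_eq_true_eq]
    constructor
    · rintro ⟨⟨a1, a2⟩, a3⟩; exact ⟨a1, a2.symm, a3⟩
    · rintro ⟨a1, a2, a3⟩; exact ⟨⟨a1, a2.symm⟩, a3⟩

/-- The run of the machine on the initial part of a special word which ends with the block of `q`. -/
theorem run_special (m : ℕ) (q p : List Bool × List Bool) (bs : List Bool)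
    (l : List (List Bool × List Bool)) (h : (p.1 ++ p.2).length = (q.1 ++ q.2).length) :
    query p ++ .r :: (items m bs ++ (l.flatMap block ++ block q)) ∈ L1 ↔
      outF m (q.1 ++ q.2) q.2 bs = true ∧ p.1 ++ p.2 = q.1 ++ q.2 := by
  change (run _).out = true ∧ (run _).ok = true ↔ _
  unfold query
  rw [run_append, run_cons, run_append, run_append]
  obtain ⟨a1, a2, a3, a4⟩ := run_block q
  obtain ⟨b1, b2, b3, b4⟩ := runFrom_blocks l _ a4
  obtain ⟨c1, c2, c3, c4⟩ := runFrom_items m bs _ (b3.trans a3) b4
  rw [b1, a1, b2, a2] at c3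
  rw [b1, a1] at c1
  generalize runFrom (items m bs) (runFrom (l.flatMap block) (run (block q))) = t at *
  have e : (step .r t).pa = q.1 ++ q.2 := c1
  obtain ⟨d1, d2⟩ := runFrom_cmp (p.1 ++ p.2) (step .r t) (by rw [e]; exact h)
  rw [d1, d2, e]
  have e2 : (step .r t).ok = true := rfl
  have e3 : (step .r t).out = t.out := rfl
  rw [e2, e3, c3]
  simp

/-- Dead states. -/
def Dead (t : St) : Prop := t.fresh = false ∧ t.loading = false ∧ t.lab = [] ∧ t.pa = [] ∧
  t.acc = false ∧ t.out = false

theorem Dead.step {t : St} (h : Dead t) (a : Sym) : Dead (step a t) := by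
  obtain ⟨h1, h2, h3, h4, h5, h6⟩ := h
  cases a <;> simp [Dead, PE.step, h1, h2, h3, h4, h5, h6]

theorem Dead.runFrom {t : St} (h : Dead t) (u : List Sym) : Dead (runFrom u t) := by
  induction u with
  | nil => exact h
  | cons a u ih => exact ih.step a

theorem dead_init {a : Sym} (h : a ≠ .m) : Dead (step a St.init) := by
  cases a <;> simp_all [Dead, step, St.init]

theorem last_of_mem {u : List Sym} (h : u ∈ L1) : ∃ u', u = u' ++ [.m] := by
  rcases List.eq_nil_or_concat u with rfl | ⟨u', a, rfl⟩
  · exact absurd h.1 (by simp [St.init])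
  · by_cases ha : a = .m
    · subst ha
      exact ⟨u', by simp⟩
    · exfalso
      have h1 : Dead (run (u'.concat a)) := by
        rw [List.concat_eq_append, run_append]
        exact (dead_init ha).runFrom u'
      have h2 := h1.2.2.2.2.2
      have h3 := h.1
      rw [h2] at h3
      cases h3

theorem not_mem_bits (l : List Bool) : Sym.m ∉ bits l := by
  intro h
  simp only [bits, List.mem_map] at h
  obtain ⟨c, -, hc⟩ := h
  cases c <;> simp [bit] at hc

theorem not_mem_items (m : ℕ) (bs : List Bool) : Sym.m ∉ items m bs := by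
  intro h
  simp only [items, List.mem_flatMap] at h
  obtain ⟨c, -, hc⟩ := h
  unfold item at hc
  cases c <;> simp at hc

theorem split_blocks (QL : List (List Bool × List Bool)) (H u v : List Sym) (hH : Sym.m ∉ H)
    (h : u ++ .m :: v = H ++ QL.flatMap block) :
    ∃ l₁ q l₂, QL = l₁ ++ q :: l₂ ∧ u ++ [.m] = H ++ (l₁.flatMap block ++ block q) := by
  induction QL generalizing H u with
  | nil =>
    exfalso
    apply hH
    have : Sym.m ∈ u ++ .m :: v := by simp
    rw [h] at this
    simpa using this
  | cons q QL ih =>
    set H' := H ++ (bits q.1 ++ .n :: bits q.2) with hH'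
    have hm : Sym.m ∉ H' := by
      simp only [hH', List.mem_append, List.mem_cons, not_or]
      exact ⟨hH, not_mem_bits _, by simp, not_mem_bits _⟩
    have h1 : u ++ .m :: v = H' ++ .m :: QL.flatMap block := by
      rw [h, hH', List.flatMap_cons, block]
      simp
    have hb : H ++ block q = H' ++ [.m] := by rw [hH', block]; simp
    rcases List.append_eq_append_iff.1 h1 with ⟨z, hz1, hz2⟩ | ⟨z, hz1, hz2⟩
    · -- `H' = u ++ z`
      rcases z with _ | ⟨a, z⟩
      · refine ⟨[], q, QL, rfl, ?_⟩
        rw [List.append_nil] at hz1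
        rw [List.flatMap_nil, List.nil_append, hb, hz1]
      · exfalso
        apply hm
        rw [hz1]
        have : a = .m := (List.cons.inj hz2).1.symm
        simp [this]
    · -- `u = H' ++ z`
      rcases z with _ | ⟨a, z⟩
      · refine ⟨[], q, QL, rfl, ?_⟩
        rw [List.append_nil] at hz1
        rw [List.flatMap_nil, List.nil_append, hb, hz1]
      · have e1 : a = .m := (List.cons.inj hz2).1.symm
        have e2 := (List.cons.inj hz2).2
        obtain ⟨l₁, q', l₂, g1, g2⟩ := ih [] z (by simp) (by simpa using e2.symm)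
        refine ⟨q :: l₁, q', l₂, by rw [g1]; rfl, ?_⟩
        rw [List.nil_append] at g2
        rw [hz1, e1, List.append_assoc, List.cons_append, g2, List.flatMap_cons]
        have : H ++ (block q ++ l₁.flatMap block ++ block q') =
            (H ++ block q) ++ (l₁.flatMap block ++ block q') := by simp
        rw [this, hb]
        simp

/-- The membership of a special word in `L₁ Σ*`. -/
theorem mem_iff (m : ℕ) (QL : List (List Bool × List Bool))
    (hQL : ∀ q ∈ QL, q.1.length = m ∧ q.2.length = m) (q : List Bool × List Bool) (hq : q ∈ QL)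
    (bs : List Bool) :
    query q ++ .r :: (items m bs ++ QL.flatMap block) ∈ L1 * (⊤ : Language Sym) ↔
      outF m (q.1 ++ q.2) q.2 bs = true := by
  rw [Language.mem_mul]
  constructor
  · rintro ⟨u, hu, v, -, huv⟩
    obtain ⟨u', rfl⟩ := last_of_mem hu
    have h1 : u' ++ .m :: v = (query q ++ .r :: items m bs) ++ QL.flatMap block := by
      rw [List.append_assoc] at huv
      simpa using huv
    obtain ⟨l₁, p, l₂, g1, g2⟩ := split_blocks QL _ u' v (by
      simp only [List.mem_append, List.mem_cons, not_or]
      exact ⟨not_mem_bits _, by simp, not_mem_items _ _⟩) h1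
    rw [g2] at hu
    have hp := hQL p (by rw [g1]; simp)
    have hq' := hQL q hq
    have h2 : query q ++ .r :: (items m bs ++ (l₁.flatMap block ++ block p)) ∈ L1 := by
      simpa using hu
    rw [run_special m p q bs l₁ (by simp only [List.length_append]; omega)] at h2
    obtain ⟨h3, h4⟩ := h2
    have h5 := List.append_inj h4 (by omega)
    rw [h5.1, h5.2]
    exact h3
  · intro h
    obtain ⟨l₁, l₂, rfl⟩ := List.append_of_mem hq
    refine ⟨_, (run_special m q q bs l₁ rfl).2 ⟨h, rfl⟩, l₂.flatMap block, trivial, ?_⟩
    simp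

end Pool.Agent.W2helper59.PE
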