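import Pool.Agent.W2helper59.PE.Alg
import Pool.Agent.W2helper59.PE.Loc
import Pool.Agent.W2helper59.PE.Count

/-!
# The lower bound
-/

set_option autoImplicit false

namespace Pool.Agent.W2helper59.PE

open Finset

theorem length_item (m : ℕ) (b : Bool) : (item m b).length = m + 3 := by
  simp [item]

theorem length_items (m : ℕ) (bs : List Bool) : (items m bs).length = (m + 3) * bs.length := by
  induction bs with
  | nil => rfl
  | cons b bs ih =>
    have e : items m (b :: bs) = item m b ++ items m bs := by simp [items]
    rw [e, List.length_append, length_item, ih, List.length_cons]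
    ring

theorem items_append (m : ℕ) (bs bs' : List Bool) :
    items m (bs ++ bs') = items m bs ++ items m bs' := by simp [items]

theorem length_query (q : List Bool × List Bool) :
    (query q).length = q.1.length + q.2.length := by
  simp [query, bits]; omega

/-- The words without the query. -/
def vword (m : ℕ) (Z : List Sym) (bs : List Bool) : List Sym := .r :: (items m bs ++ Z)

theorem length_vword (m : ℕ) (Z : List Sym) (bs : List Bool) :
    (vword m Z bs).length = 1 + (m + 3) * bs.length + Z.length := by
  simp [vword, length_items]; omega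

/-- The cell with bounded numbers. -/
noncomputable def cellF (G : PEG Sym) (K : ℕ) (v : List Sym) :
    Option Sym × (G.N → Option (Option (Fin (K + 1)))) :=
  (v.head?, fun X => (lv G (.nt X) v).map (Option.map (Fin.ofNat (K + 1))))

theorem lv_le {G : PEG Sym} {e : PExp G.N Sym} {w : List Sym} {j : ℕ}
    (h : lv G e w = some (some j)) : j ≤ w.length := by
  obtain ⟨r, h1, h2⟩ := res_of_lv h
  rcases r with _ | v
  · simp at h2
  · simp only [Option.map_some, Option.some.injEq] at h2
    subst h2
    exact h1.suffix.length_le

theorem cell_eq_of_cellF {G : PEG Sym} {K : ℕ} {v v' : List Sym} (hv : v.length ≤ K)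
    (hv' : v'.length ≤ K) (h : cellF G K v = cellF G K v') : cell G v = cell G v' := by
  unfold cell
  have h1 := congrArg Prod.fst h
  have h2 := congrArg Prod.snd h
  simp only [cellF] at h1 h2
  rw [Prod.mk.injEq]
  refine ⟨h1, ?_⟩
  funext X
  have h3 := congrFun h2 X
  rcases e : lv G (.nt X) v with _ | _ | j <;> rcases e' : lv G (.nt X) v' with _ | _ | j'
  case some.some.some.some =>
    have k1 := lv_le e
    have k2 := lv_le e'
    rw [e, e'] at h3
    simp only [Option.map_some, Option.some.injEq] at h3
    have h4 := congrArg Fin.val h3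
    simp only [Fin.val_ofNat] at h4
    rw [Nat.mod_eq_of_lt (by omega), Nat.mod_eq_of_lt (by omega)] at h4
    rw [h4]
  all_goals first | rfl | (rw [e, e'] at h3; simp at h3)

open Classical in
theorem epoch_step (G : PEG Sym) [Fintype G.N] (hG : G.language = L1 * (⊤ : Language Sym))
    (m : ℕ) (hm : 0 < m) {Q : Type} [Fintype Q] (lab : Q → List Bool × List Bool)
    (s : Q → ℕ → ZMod 2)
    (hQ : Fintype.card Q = 2 ^ m * 2 ^ m)
    (hlab : ∀ q, (lab q).1.length = m ∧ (lab q).2.length = m)
    (hout : ∀ q bs, outF m ((lab q).1 ++ (lab q).2) (lab q).2 bs = tb (zs m (s q) bs))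
    (hbias : ∀ (n e : ℕ) (y : Fin n → ZMod 2), y ≠ 0 → Fintype.card Q ≤
      2 * (univ.filter fun q => ∑ j : Fin n, y j * s q (m + e + (n - 1 - j.1)) ≠ 0).card +
        n * 2 ^ m)
    (Z : List Sym) (hZ : Z = (univ.toList.map lab).flatMap block)
    (old : List Bool) (n R t h K : ℕ)
    (hK : 1 + (m + 3) * (R + n + old.length) + Z.length ≤ K)
    (hN : 0 < n) (hh : h ≤ n * (m + 3)) (ht : 0 < t) (hh0 : 0 < h)
    (hE : 4 * (n * 2 ^ m) * (2 * (n * (m + 3))) ^ t ≤ Fintype.card Q * h ^ t)
    (hcount : 2 ^ R * (n * (m + 3) *
        Fintype.card (Option Sym × (G.N → Option (Option (Fin (K + 1)))))) ^ (h * t) *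
      Fintype.card (Option Sym × (G.N → Option (Option (Fin (K + 1))))) ^ (1 + (m + 3) * R) *
      (4 * (2 * (n * (m + 3))) ^ t) < 2 ^ n * h ^ t) :
    ∃ x : Fin n → ZMod 2, ∀ ρ : Fin R → Bool, t * Fintype.card Q ≤
      2 * ∑ q, ((look G (query (lab q)) (vword m Z (List.ofFn ρ ++
        (List.ofFn (fun j => tb (x j)) ++ old)))) ∩
          Ioc (Z.length + (m + 3) * old.length)
            (Z.length + (m + 3) * (old.length + n))).card := by
  set base := Z.length + (m + 3) * old.length with hbase
  let v : (Fin n → ZMod 2) → (Fin R → Bool) → List Sym := fun x ρ =>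
    vword m Z (List.ofFn ρ ++ (List.ofFn (fun j => tb (x j)) ++ old))
  have hvlen : ∀ x ρ, (v x ρ).length = base + n * (m + 3) + (1 + (m + 3) * R) := by
    intro x ρ
    simp only [v, length_vword, List.length_append, List.length_ofFn, hbase]
    ring
  have hvK : ∀ x ρ, (v x ρ).length ≤ K := by
    intro x ρ
    rw [hvlen]
    refine le_trans (le_of_eq ?_) hK
    rw [hbase]
    ring
  have hbs : ∀ x ρ, ∃ u, v x ρ = u ++ (items m old ++ Z) := by
    intro x ρ
    refine ⟨.r :: (items m (List.ofFn ρ) ++ items m (List.ofFn (fun j => tb (x j)))), ?_⟩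
    simp only [v, vword, items_append]
    simp
  have hblen : (items m old ++ Z).length = base := by
    rw [List.length_append, length_items, hbase]; omega
  have hsuf : ∀ x x' ρ ρ' k, k ≤ base → suf (v x ρ) k = suf (v x' ρ') k := by
    intro x x' ρ ρ' k hk
    obtain ⟨u, hu⟩ := hbs x ρ
    obtain ⟨u', hu'⟩ := hbs x' ρ'
    rw [hu, hu', suf_append (v := items m old ++ Z) (by omega),
      suf_append (v := items m old ++ Z) (by omega)]
  have hmem : ∀ x ρ q, query (lab q) ++ v x ρ ∈ G.language ↔
      tb (zs m (s q) (List.ofFn ρ ++ (List.ofFn (fun j => tb (x j)) ++ old))) = true := by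
    intro x ρ q
    rw [hG, ← hout]
    have := mem_iff m (univ.toList.map lab) (by
      intro p hp
      obtain ⟨q', -, rfl⟩ := List.mem_map.1 hp
      exact hlab q') (lab q) (List.mem_map.2 ⟨q, by simp, rfl⟩)
      (List.ofFn ρ ++ (List.ofFn (fun j => tb (x j)) ++ old))
    rw [← hZ] at this
    exact this
  obtain ⟨x, hx⟩ := epoch (n := n) (N := n * (m + 3)) (t := t) (h := h) (E0 := n * 2 ^ m)
    (Q := Q) (P := Fin R → Bool)
    (C := Option Sym × (G.N → Option (Option (Fin (K + 1)))))
    (M := Fin (1 + (m + 3) * R) → Option Sym × (G.N → Option (Option (Fin (K + 1)))))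
    (fun x ρ q => zs m (s q) (List.ofFn ρ ++ (List.ofFn (fun j => tb (x j)) ++ old)))
    (fun x ρ q => univ.filter fun k : Fin (n * (m + 3)) =>
      base + 1 + k.1 ∈ look G (query (lab q)) (v x ρ))
    (fun x ρ k => cellF G K (suf (v x ρ) (base + 1 + k.1)))
    (fun x ρ k => cellF G K (suf (v x ρ) (base + n * (m + 3) + 1 + k.1)))
    (fun q j => s q (m + old.length + (n - 1 - j.1)))
    (by
      intro x x' ρ q h1 h2
      apply tb_inj
      rw [Bool.eq_iff_iff, ← hmem, ← hmem]
      refine agree ?_ (by rw [hvlen, hvlen]) ?_
      · intro h0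
        have := congrArg List.length h0
        rw [length_query, (hlab q).1, (hlab q).2] at this
        simp at this
        omega
      · intro k hk
        rcases le_or_gt k base with hk1 | hk1
        · rw [hsuf x x' ρ ρ k hk1]
        · have hkv := mem_look_le hk
          have l1 : (suf (v x ρ) k).length ≤ K := by
            rw [length_suf hkv]; exact hkv.trans (hvK x ρ)
          have l2 : (suf (v x' ρ) k).length ≤ K := by
            rw [length_suf (by rw [hvlen] at hkv ⊢; exact hkv)]; exact hkv.trans (hvK x ρ)
          refine cell_eq_of_cellF l1 l2 ?_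
          rcases le_or_gt k (base + n * (m + 3)) with hk2 | hk2
          · have e : base + 1 + (k - base - 1) = k := by omega
            have := h1 ⟨k - base - 1, by omega⟩ (by
              simp only [mem_filter, mem_univ, true_and]
              rw [e]; exact hk)
            simp only at this
            rwa [e] at this
          · have e : base + n * (m + 3) + 1 + (k - (base + n * (m + 3)) - 1) = k := by omega
            rw [hvlen] at hkv
            have := congrFun h2 ⟨k - (base + n * (m + 3)) - 1, by omega⟩
            simp only at this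
            rwa [e] at this)
    (by
      intro x x' ρ q
      rw [zs_append_congr _ _ _ _ _ (by simp), zs_ofFn, zs_ofFn]
      rw [add_sub_add_left_eq_sub, ← Finset.sum_sub_distrib]
      refine Finset.sum_congr rfl fun j _ => ?_
      ring)
    (fun y hy => hbias n old.length y hy)
    (by positivity) hh ht hh0 (by rw [hQ]; positivity) hE
    (by
      simpa only [Fintype.card_fun, Fintype.card_fin, Fintype.card_bool] using hcount)
  refine ⟨x, fun ρ => (hx ρ).trans (Nat.mul_le_mul_left _ (Finset.sum_le_sum fun q _ => ?_))⟩
  refine Finset.card_le_card_of_injOn (fun k => base + 1 + k.1) ?_ ?_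
  · intro k hk
    simp only [coe_filter, mem_univ, true_and, Set.mem_ofPred_eq] at hk
    simp only [coe_inter, Set.mem_inter_iff, mem_coe, mem_Ioc]
    refine ⟨hk, by omega, ?_⟩
    have h1 := k.2
    have h2 : Z.length + (m + 3) * (old.length + n) = base + n * (m + 3) := by
      rw [hbase]; ring
    omega
  · intro k _ k' _ h
    ext
    simp only at h
    omega

end Pool.Agent.W2helper59.PE
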